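import Pool.Agent.WK2.Uxi

/-!
# MP_7d2497_an, squad WK2: row CST, the construction of a bad set with dense functions
-/

set_option autoImplicit false

namespace Pool.Agent.WK2

open MeasureTheory Filter Topology Complex
open Pool.Agent.H78E Pool.Agent.WK
open Pool.Agent.WKS

noncomputable section

namespace Cst

variable {φ : ℝ → ℝ}

theorem dns_of_dense (hφ : IsWeight φ) {K : Set ℝ}
    (hdense : ∀ f : Y, f ∈ (Uxi.W φ K).topologicalClosure) : Dns φ K ∅ := by
  intro f hf _ ε hε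
  obtain ⟨F, hF1, _, _⟩ := toE hφ hf
  have h1 : F ∈ closure ((Uxi.W φ K : Submodule ℂ Y) : Set Y) := hdense F
  obtain ⟨F', hF', hd⟩ := Metric.mem_closure_iff.mp h1 ε hε
  obtain ⟨f', hf1, hf2, _, hf3⟩ := ofE hφ F'
  obtain ⟨S, hS⟩ := hF'
  classical
  refine ⟨f', hf1, ⟨S.filter (fun x => x ∈ K), ?_, ?_⟩, ?_⟩
  · intro x hx
    rw [Finset.mem_filter] at hx
    exact ⟨hx.2, fun h => h.elim⟩
  · intro x hx hx2
    rw [hf3 _ (by simp)]
    apply hS x hx
    intro h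
    exact hx2 (Finset.mem_filter.mpr ⟨h, hx⟩)
  · rw [← distE hφ hF1 hf2, ← dist_eq_norm]
    exact hd

/-- The elements `exp(-(m+1)t)`. -/
theorem exists_E (hφ : IsWeight φ) (m : ℕ) : ∃ r : Y, ∀ᵐ t : ℝ, 0 < t →
    ((dv φ r : X) : ℝ → ℂ) t = Complex.exp (-(((m : ℂ) + 1) * (t : ℂ))) := by
  have hre : 0 < ((m : ℂ) + 1).re := by
    simp only [Complex.add_re, Complex.natCast_re, Complex.one_re]
    positivity
  have h2 := (GI.exp hφ hre).2
  have h3 := h2.integrable_indicator measurableSet_Ioi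
  have h1 : L1 φ ((Set.Ioi (0 : ℝ)).indicator
      fun t : ℝ => Complex.exp (-(((m : ℂ) + 1) * (t : ℂ)))) := by
    refine ⟨?_, ?_⟩
    · refine Measurable.aestronglyMeasurable ?_
      refine Measurable.indicator ?_ measurableSet_Ioi
      fun_prop
    · refine h3.congr (Eventually.of_forall fun t => ?_)
      by_cases h : t ∈ Set.Ioi (0 : ℝ)
      · simp only [Set.indicator_of_mem h]
      · simp only [Set.indicator_of_notMem h, norm_zero, mul_zero]
  obtain ⟨F, hF⟩ := toYW hφ h1 (Eventually.of_forall fun t ht =>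
    Set.indicator_of_notMem (fun h => absurd (Set.mem_Ioi.mp h) (not_lt.mpr ht.le)) _)
  refine ⟨F, ?_⟩
  filter_upwards [hF] with t ht h0
  rw [ht, Set.indicator_of_mem (show t ∈ Set.Ioi (0 : ℝ) from h0)]

/-- Combinations of the exponentials are dense. -/
theorem densE (hφ : IsWeight φ) {E : ℕ → Y} (hE : ∀ m : ℕ, ∀ᵐ t : ℝ, 0 < t →
    ((dv φ (E m) : X) : ℝ → ℂ) t = Complex.exp (-(((m : ℂ) + 1) * (t : ℂ))))
    (F : Y) {ε : ℝ} (hε : 0 < ε) :
    ∃ (N : ℕ) (c : ℕ → ℂ), ‖F - ∑ m ∈ Finset.range N, c m • E m‖ < ε := by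
  obtain ⟨N, c, hc⟩ := densW hφ (GI_dv hφ F) hε
  refine ⟨N, c, ?_⟩
  refine lt_of_le_of_lt (le_of_eq ?_) hc
  rw [normW_eq hφ, ← integral_indicator measurableSet_Ioi]
  apply integral_congr_ae
  have h0 : ∀ᵐ t : ℝ, t ≠ 0 := by
    have : volume ({0} : Set ℝ) = 0 := by simp
    exact compl_mem_ae_iff.mpr this
  set G : Y := F - ∑ m ∈ Finset.range N, c m • E m with hG
  have hneg : ∀ᵐ t : ℝ, t < 0 → ((dv φ G : X) : ℝ → ℂ) t = 0 := (dv φ G).2
  have hsum : ∀ s : Finset ℕ, ∀ᵐ t : ℝ, ((dv φ (∑ m ∈ s, c m • E m) : X) : ℝ → ℂ) t =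
      ∑ m ∈ s, c m * ((dv φ (E m) : X) : ℝ → ℂ) t := by
    classical
    intro s
    induction s using Finset.induction_on with
    | empty =>
      simp only [Finset.sum_empty, map_zero]
      exact Lp.coeFn_zero ℂ 1 volume
    | insert i s hi ih =>
      rw [Finset.sum_insert hi, map_add, map_smul, Submodule.coe_add, Submodule.coe_smul]
      filter_upwards [Lp.coeFn_add (c i • (dv φ (E i) : X))
        ((dv φ (∑ m ∈ s, c m • E m) : Y) : X),
        Lp.coeFn_smul (c i) (dv φ (E i) : X), ih] with t h1 h2 h3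
      rw [h1, Pi.add_apply, h2, Pi.smul_apply, h3, Finset.sum_insert hi, smul_eq_mul]
  have hsub : ∀ᵐ t : ℝ, ((dv φ G : X) : ℝ → ℂ) t = ((dv φ F : X) : ℝ → ℂ) t -
      ((dv φ (∑ m ∈ Finset.range N, c m • E m) : X) : ℝ → ℂ) t := by
    rw [hG, map_sub, Submodule.coe_sub]
    exact Lp.coeFn_sub _ _
  have hE' : ∀ᵐ t : ℝ, ∀ m : ℕ, 0 < t →
      ((dv φ (E m) : X) : ℝ → ℂ) t = Complex.exp (-(((m : ℂ) + 1) * (t : ℂ))) :=
    ae_all_iff.mpr hE
  filter_upwards [h0, hneg, hsum (Finset.range N), hsub, hE'] with t h1 h2 h3 h4 h5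
  by_cases h : 0 < t
  · rw [Set.indicator_of_mem (show t ∈ Set.Ioi (0 : ℝ) from h), h4, h3]
    congr 3
    apply Finset.sum_congr rfl
    intro m _
    rw [h5 m h]
  · rw [Set.indicator_of_notMem (show t ∉ Set.Ioi (0 : ℝ) from h),
      h2 (lt_of_le_of_ne (not_lt.mp h) h1), norm_zero, mul_zero]

theorem A_nonneg (hφ : IsWeight φ) {F : Finset ℝ} {c : ℝ → ℂ} {A : ℝ}
    (h : ∀ t : ℝ, 0 ≤ t → ‖ES F c t‖ ≤ A * φ t) : 0 ≤ A := by
  have h1 := (norm_nonneg _).trans (h 0 le_rfl)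
  have h2 : 0 < φ 0 := one_le_max_zero hφ 0
  by_contra hA
  push Not at hA
  nlinarith

theorem Ineq_empty (hφ : IsWeight φ) {C : ℝ} (hC : 0 ≤ C) : Ineq φ (∅ : Set ℝ) C := by
  intro F c A hF hA t _
  have hF' : F = ∅ := by
    rw [← Finset.coe_eq_empty]
    exact Set.subset_eq_empty hF rfl
  have hA0 := A_nonneg hφ hA
  rw [hF']
  unfold ES
  rw [Finset.sum_empty, norm_zero]
  exact mul_nonneg (mul_nonneg hC hA0) (one_le_max_zero hφ t).le

theorem Ineq_mono_C (hφ : IsWeight φ) {K : Set ℝ} {C C' : ℝ} (hC : C ≤ C') (h : Ineq φ K C) :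
    Ineq φ K C' := by
  intro F c A hF hA t ht
  have hA0 := A_nonneg hφ hA
  refine (h F c A hF hA t ht).trans ?_
  exact mul_le_mul_of_nonneg_right (mul_le_mul_of_nonneg_right hC hA0) (one_le_max_zero hφ t).le

theorem Ineq_mono {K K' : Set ℝ} {C : ℝ} (hK : K' ⊆ K) (h : Ineq φ K C) : Ineq φ K' C :=
  fun F c A hF hA t ht => h F c A (hF.trans hK) hA t ht

/-- Minimal bad sets. -/
theorem bad_set (hφ : IsWeight φ) {L : Set ℝ} (h : ¬ FarI φ L) (R : ℝ) {C : ℝ} (hC : 0 ≤ C) :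
    ∃ (F' : Finset ℝ) (y : ℝ), ((insert y F' : Finset ℝ) : Set ℝ) ⊆ L ∧
      (∀ x ∈ insert y F', R ≤ |x|) ∧ Ineq φ (F' : Set ℝ) C ∧
      ¬ Ineq φ ((insert y F' : Finset ℝ) : Set ℝ) C := by
  classical
  have hex : ∃ n : ℕ, ∃ F : Finset ℝ, F.card = n ∧ (F : Set ℝ) ⊆ L ∧ (∀ x ∈ F, R ≤ |x|) ∧
      ¬ Ineq φ (F : Set ℝ) C := by
    have h1 : ¬ Ineq φ {x | x ∈ L ∧ R ≤ |x|} C := fun h2 => h ⟨R, C, h2⟩
    unfold Ineq at h1
    push Not at h1
    obtain ⟨F, c, A, hF, hA, t, ht, hlt⟩ := h1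
    refine ⟨F.card, F, rfl, fun x hx => (hF hx).1, fun x hx => (hF (Finset.mem_coe.mpr hx)).2,
      fun h2 => ?_⟩
    exact absurd (h2 F c A subset_rfl hA t ht) (not_le.mpr hlt)
  obtain ⟨F, hcard, hFL, hFR, hF⟩ := Nat.find_spec hex
  have hne : F.Nonempty := by
    rw [Finset.nonempty_iff_ne_empty]
    rintro rfl
    apply hF
    rw [Finset.coe_empty]
    exact Ineq_empty hφ hC
  obtain ⟨y, hy⟩ := hne
  refine ⟨F.erase y, y, ?_, ?_, ?_, ?_⟩
  · rw [Finset.insert_erase hy]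
    exact hFL
  · rw [Finset.insert_erase hy]
    exact hFR
  · by_contra hcon
    have h2 : (F.erase y).card < Nat.find hex := by
      rw [← hcard]
      exact Finset.card_erase_lt_of_mem hy
    refine Nat.find_min hex h2 ⟨F.erase y, rfl, ?_, ?_, hcon⟩
    · intro x hx
      exact hFL (Finset.mem_coe.mpr (Finset.mem_of_mem_erase (Finset.mem_coe.mp hx)))
    · intro x hx
      exact hFR x (Finset.mem_of_mem_erase hx)
  · rw [Finset.insert_erase hy]
    exact hF

/-- States of the construction. -/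
structure St (φ : ℝ → ℝ) where
  w : ℕ → Y
  G : ℕ → Finset ℝ
  inv : ∀ n : ℕ, ∀ x ∈ G n, chiW φ (x : ℂ) (w n) = 0

/-- One step of the construction. -/
theorem step (hF6 : F6Stmt) (hφ : IsWeight φ) (hR : Reg φ) {L : Set ℝ} (h : ¬ FarI φ L) (N : ℕ)
    (s : St φ) : ∃ (s' : St φ) (F : Finset ℝ), (F : Set ℝ) ⊆ L ∧ (∀ x ∈ F, (N : ℝ) ≤ |x|) ∧
      ¬ Ineq φ (F : Set ℝ) ((4 : ℝ) ^ N) ∧
      (∀ n : ℕ, n ≤ N → ‖s.w n - s'.w n‖ ≤ (1 / 2 : ℝ) ^ N ∧ F ⊆ s'.G n) ∧
      (∀ n : ℕ, s.G n ⊆ s'.G n) ∧ ∀ n : ℕ, N < n → s'.w n = s.w n := by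
  classical
  have h1 : ∀ n : ℕ, ∃ R : ℝ, ∀ F' : Finset ℝ, (∀ x ∈ F', R ≤ |x|) →
      Ineq φ (F' : Set ℝ) ((4 : ℝ) ^ N) → ∀ y : ℝ, R ≤ |y| →
      ∃ f' : Y, (∀ x ∈ insert y (s.G n ∪ F'), chiW φ (x : ℂ) f' = 0) ∧
        ‖s.w n - f'‖ ≤ (1 / 2 : ℝ) ^ N := by
    intro n
    exact hF6 φ hφ hR (s.G n) (s.w n) (s.inv n) _ _ (one_le_pow₀ (by norm_num)) (by positivity)
  choose R hR2 using h1
  obtain ⟨B, hB⟩ : ∃ B : ℝ, (N : ℝ) ≤ B ∧ ∀ n : ℕ, n ≤ N → R n ≤ B := by
    have hfin : ((Finset.range (N + 1)).image R ∪ {(N : ℝ)}).Nonempty :=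
      ⟨(N : ℝ), by simp⟩
    refine ⟨((Finset.range (N + 1)).image R ∪ {(N : ℝ)}).max' hfin, ?_, ?_⟩
    · exact Finset.le_max' _ _ (by simp)
    · intro n hn
      apply Finset.le_max'
      rw [Finset.mem_union]
      left
      exact Finset.mem_image_of_mem R (Finset.mem_range.mpr (by omega))
  obtain ⟨F', y, hL, hfar, hI, hnI⟩ := bad_set hφ h B (C := (4 : ℝ) ^ N) (by positivity)
  have h2 : ∀ n : ℕ, n ≤ N → ∃ f' : Y, (∀ x ∈ insert y (s.G n ∪ F'), chiW φ (x : ℂ) f' = 0) ∧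
        ‖s.w n - f'‖ ≤ (1 / 2 : ℝ) ^ N := by
    intro n hn
    refine hR2 n F' (fun x hx => (hB.2 n hn).trans (hfar x (Finset.mem_insert_of_mem hx))) hI y
      ((hB.2 n hn).trans (hfar y (Finset.mem_insert_self _ _)))
  have h3 : ∀ n : ℕ, ∃ f' : Y, (n ≤ N → (∀ x ∈ insert y (s.G n ∪ F'), chiW φ (x : ℂ) f' = 0) ∧
        ‖s.w n - f'‖ ≤ (1 / 2 : ℝ) ^ N) := by
    intro n
    by_cases hn : n ≤ N
    · obtain ⟨f', hf'⟩ := h2 n hn
      exact ⟨f', fun _ => hf'⟩
    · exact ⟨0, fun h => absurd h hn⟩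
  choose f' hf' using h3
  refine ⟨⟨fun n => if n ≤ N then f' n else s.w n,
    fun n => if n ≤ N then insert y (s.G n ∪ F') else s.G n, ?_⟩, insert y F', hL, ?_, hnI, ?_, ?_, ?_⟩
  · intro n x hx
    by_cases hn : n ≤ N
    · simp only [if_pos hn] at hx ⊢
      exact (hf' n hn).1 x hx
    · simp only [if_neg hn] at hx ⊢
      exact s.inv n x hx
  · intro x hx
    exact hB.1.trans (hfar x hx)
  · intro n hn
    simp only [if_pos hn]
    refine ⟨(hf' n hn).2, ?_⟩
    intro x hx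
    rw [Finset.mem_insert] at hx ⊢
    rcases hx with hx | hx
    · exact Or.inl hx
    · exact Or.inr (Finset.mem_union_right _ hx)
  · intro n x hx
    by_cases hn : n ≤ N
    · simp only [if_pos hn]
      exact Finset.mem_insert_of_mem (Finset.mem_union_left _ hx)
    · simp only [if_neg hn]
      exact hx
  · intro n hn
    simp only [if_neg (not_le.mpr hn)]

end Cst

open Cst in
theorem cst (hF6 : F6Stmt) : CstStmt := by
  intro φ hφ hR L hL
  classical
  choose nxt FF hFL hfar hbad hstep hG hkeep using fun (N : ℕ) (s : St φ) =>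
    step hF6 hφ hR hL N s
  choose E hE using exists_E hφ
  let g : ℕ → Y := fun n => E (Nat.unpair n).1
  let s0 : St φ := ⟨g, fun _ => ∅, fun n x hx => absurd hx (Finset.notMem_empty x)⟩
  let seq : ℕ → St φ := fun N => Nat.rec s0 (fun N s => nxt N s) N
  have hseq : ∀ N : ℕ, seq (N + 1) = nxt N (seq N) := fun N => rfl
  have hseq0 : seq 0 = s0 := rfl
  let F : ℕ → Finset ℝ := fun N => FF N (seq N)
  -- the sequences are constant up to the time `n`
  have hconst : ∀ n N : ℕ, N ≤ n → (seq N).w n = g n := by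
    intro n N
    induction N with
    | zero => intro _; rfl
    | succ N ih =>
      intro hN
      rw [hseq, hkeep N (seq N) n (by omega)]
      exact ih (by omega)
  have hdist : ∀ n N : ℕ, dist ((seq N).w n) ((seq (N + 1)).w n) ≤ 1 * (1 / 2 : ℝ) ^ N := by
    intro n N
    rw [one_mul]
    by_cases hn : n ≤ N
    · rw [dist_eq_norm, hseq]
      exact (hstep N (seq N) n hn).1
    · push Not at hn
      rw [hseq, hkeep N (seq N) n hn, dist_self]
      positivity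
  have hlim : ∀ n : ℕ, ∃ w : Y, Tendsto (fun N => (seq N).w n) atTop (𝓝 w) := fun n =>
    cauchySeq_tendsto_of_complete
      (cauchySeq_of_le_geometric (1 / 2 : ℝ) 1 (by norm_num) (hdist n))
  choose w hw using hlim
  have hwg : ∀ n : ℕ, dist (g n) (w n) ≤ 2 * (1 / 2 : ℝ) ^ n := by
    intro n
    have h1 := dist_le_of_le_geometric_of_tendsto (1 / 2 : ℝ) 1 (by norm_num) (hdist n) (hw n) n
    rw [hconst n n le_rfl] at h1
    refine h1.trans (le_of_eq ?_)
    norm_num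
    ring
  have hGmono : ∀ n N N' : ℕ, N ≤ N' → (seq N).G n ⊆ (seq N').G n := by
    intro n N N' hNN
    induction N' with
    | zero =>
      have : N = 0 := by omega
      rw [this]
    | succ N' ih =>
      by_cases h : N ≤ N'
      · refine (ih h).trans ?_
        rw [hseq]
        exact hG N' (seq N') n
      · have : N = N' + 1 := by omega
        rw [this]
  have hzero : ∀ n j : ℕ, n ≤ j → ∀ x ∈ F j, chiW φ (x : ℂ) (w n) = 0 := by
    intro n j hnj x hx
    have h1 : Tendsto (fun N => chiW φ (x : ℂ) ((seq N).w n)) atTop (𝓝 (chiW φ (x : ℂ) (w n))) :=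
      ((chiW φ (x : ℂ)).continuous.tendsto _).comp (hw n)
    have h2 : Tendsto (fun N => chiW φ (x : ℂ) ((seq N).w n)) atTop (𝓝 0) := by
      refine tendsto_const_nhds.congr' ?_
      filter_upwards [eventually_ge_atTop (j + 1)] with N hN
      symm
      apply (seq N).inv n
      apply hGmono n (j + 1) N hN
      rw [hseq]
      exact (hstep j (seq j) n hnj).2 hx
    exact tendsto_nhds_unique h1 h2
  let K : Set ℝ := {x | ∃ N : ℕ, x ∈ F N}
  have hFK : ∀ N : ℕ, (F N : Set ℝ) ⊆ K := fun N x hx => ⟨N, hx⟩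
  refine ⟨K, ?_, ?_, ?_, ?_⟩
  · rintro x ⟨N, hx⟩
    exact hFL N (seq N) hx
  · intro R
    obtain ⟨m, hm⟩ := exists_nat_gt R
    have h1 : (((Finset.range m).biUnion F : Finset ℝ) : Set ℝ).Finite := Finset.finite_toSet _
    refine h1.subset ?_
    rintro x ⟨⟨N, hx⟩, hxR⟩
    rw [Finset.mem_coe, Finset.mem_biUnion]
    refine ⟨N, ?_, hx⟩
    rw [Finset.mem_range]
    have h2 : (N : ℝ) ≤ |x| := hfar N (seq N) x hx
    have h3 : |x| ≤ R := abs_le.mpr ⟨hxR.1, hxR.2⟩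
    have h4 : (N : ℝ) < m := by linarith
    exact_mod_cast h4
  · apply dns_of_dense hφ
    have hEm : ∀ m : ℕ, E m ∈ (Uxi.W φ K).topologicalClosure := by
      intro m
      have h1 : E m ∈ closure ((Uxi.W φ K : Submodule ℂ Y) : Set Y) := by
        rw [Metric.mem_closure_iff]
        intro ε hε
        obtain ⟨k, hk⟩ : ∃ k : ℕ, 2 * (1 / 2 : ℝ) ^ k < ε := by
          obtain ⟨k, hk⟩ := exists_pow_lt_of_lt_one (show (0 : ℝ) < ε / 2 by positivity)
            (show (1 / 2 : ℝ) < 1 by norm_num)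
          exact ⟨k, by linarith⟩
        refine ⟨w (Nat.pair m k), ?_, ?_⟩
        · refine ⟨(Finset.range (Nat.pair m k)).biUnion F, ?_⟩
          rintro x ⟨N, hx⟩ hx2
          apply hzero _ N _ x hx
          by_contra hN
          apply hx2
          rw [Finset.mem_biUnion]
          exact ⟨N, Finset.mem_range.mpr (not_le.mp hN), hx⟩
        · have h2 := hwg (Nat.pair m k)
          have h3 : g (Nat.pair m k) = E m := by
            change E (Nat.unpair (Nat.pair m k)).1 = E m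
            rw [Nat.unpair_pair]
          rw [h3] at h2
          refine lt_of_le_of_lt (h2.trans ?_) hk
          have h4 : k ≤ Nat.pair m k := Nat.right_le_pair m k
          have h5 : (1 / 2 : ℝ) ^ (Nat.pair m k) ≤ (1 / 2 : ℝ) ^ k :=
            pow_le_pow_of_le_one (by norm_num) (by norm_num) h4
          linarith
      exact h1
    intro f
    have h1 : f ∈ closure (((Uxi.W φ K).topologicalClosure : Submodule ℂ Y) : Set Y) := by
      rw [Metric.mem_closure_iff]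
      intro ε hε
      obtain ⟨N, c, hc⟩ := densE hφ hE f hε
      refine ⟨∑ m ∈ Finset.range N, c m • E m, ?_, by rw [dist_eq_norm]; exact hc⟩
      exact Submodule.sum_mem _ fun m _ => Submodule.smul_mem _ _ (hEm m)
    have h2 := (Uxi.W φ K).isClosed_topologicalClosure
    rw [h2.closure_eq] at h1
    exact h1
  · intro C hC
    obtain ⟨N, hN⟩ := pow_unbounded_of_one_lt C (show (1 : ℝ) < 4 by norm_num)
    exact hbad N (seq N) (Ineq_mono_C hφ hN.le (Ineq_mono (hFK N) hC))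

end

end Pool.Agent.WK2
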