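import Pool.Agent.WK2.Poly

/-!
# MP_7d2497_an, squad WK2: row REG, the polynomial weights are regular
-/

set_option autoImplicit false

namespace Pool.Agent.WK2

open MeasureTheory Filter Topology Complex FourierTransform SchwartzMap
open Pool.Agent.H78E Pool.Agent.WK

noncomputable section

theorem exists_bandlimited : ∃ b : 𝓢(ℝ, ℂ), ∫ u : ℝ, b u = 1 ∧
    ∀ x : ℝ, 2 * Real.pi ≤ |x| →
      ∫ u : ℝ, b u * Complex.exp (-(Complex.I * (u : ℂ) * (x : ℂ))) = 0 := by
  let f : ContDiffBump (0 : ℝ) := ⟨1 / 2, 1, by norm_num, by norm_num⟩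
  have h1 : HasCompactSupport (fun x : ℝ => (f x : ℂ)) :=
    f.hasCompactSupport.comp_left (g := fun y : ℝ => (y : ℂ)) Complex.ofReal_zero
  have h2 : ContDiff ℝ (⊤ : ℕ∞) (fun x : ℝ => (f x : ℂ)) :=
    Complex.ofRealCLM.contDiff.comp f.contDiff
  let ψ : 𝓢(ℝ, ℂ) := h1.toSchwartzMap h2
  have hψ : ∀ x : ℝ, ψ x = (f x : ℂ) := fun x => rfl
  have hF : 𝓕 (𝓕⁻ ψ) = ψ := FourierTransform.fourier_fourierInv_eq ψ
  have key : ∀ x : ℝ, ∫ u : ℝ, (𝓕⁻ ψ) u * Complex.exp (-(Complex.I * (u : ℂ) * (x : ℂ))) =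
      (f (x / (2 * Real.pi)) : ℂ) := by
    intro x
    rw [← hψ, ← hF, fourier_coe, Real.fourier_real_eq_integral_exp_smul]
    congr 1
    ext1 u
    rw [smul_eq_mul, mul_comm, hF]
    congr 2
    have hpi : (Real.pi : ℂ) ≠ 0 := by exact_mod_cast Real.pi_ne_zero
    push_cast
    field_simp
  refine ⟨𝓕⁻ ψ, ?_, ?_⟩
  · have h := key 0
    simp only [Complex.ofReal_zero, mul_zero, neg_zero, Complex.exp_zero, mul_one, zero_div] at h
    rw [h]
    have h3 : f 0 = 1 := f.one_of_mem_closedBall (Metric.mem_closedBall_self f.rIn_pos.le)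
    rw [h3, Complex.ofReal_one]
  · intro x hx
    rw [key x]
    have h3 : f (x / (2 * Real.pi)) = 0 := by
      apply f.zero_of_le_dist
      rw [Real.dist_eq, sub_zero, abs_div, abs_of_pos Real.two_pi_pos, le_div_iff₀ Real.two_pi_pos]
      change 1 * (2 * Real.pi) ≤ |x|
      rw [one_mul]
      exact hx
    rw [h3, Complex.ofReal_zero]

theorem reg : RegStmt := by
  intro a ha
  have he : (fun t : ℝ => (1 + |t|) ^ a) = wp a a := by
    ext t
    rcases le_total 0 t with ht | ht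
    · rw [wp_of_nonneg a a ht, abs_of_nonneg ht]
    · rw [wp_of_nonpos a a ht, abs_of_nonpos ht]
  refine ⟨by rw [he]; exact isWeight_wp ha ha, ?_⟩
  obtain ⟨b, hb1, hb2⟩ := exists_bandlimited
  obtain ⟨n, hn⟩ := exists_nat_ge a
  have hcont : Continuous fun t : ℝ => (1 + |t|) ^ a :=
    (continuous_const.add continuous_abs).rpow_const fun _ => Or.inr ha
  refine ⟨b, fun t => (1 + |t|) ^ a, 2 * Real.pi, hcont.measurable, ?_,
    b.continuous.aestronglyMeasurable, ?_, hb1, hb2⟩
  · intro s u hsu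
    exact Real.rpow_le_rpow (by positivity) (by linarith) ha
  · have h1 : Integrable (fun u : ℝ => 2 ^ n * (‖b u‖ + ‖u‖ ^ n * ‖b u‖)) volume :=
      (b.integrable.norm.add (b.integrable_pow_mul volume n)).const_mul _
    refine h1.mono' (hcont.mul b.continuous.norm).aestronglyMeasurable
      (Eventually.of_forall fun u => ?_)
    rw [Real.norm_of_nonneg (by positivity)]
    have h2 : (1 + |u|) ^ a ≤ (1 + |u|) ^ n := by
      rw [← Real.rpow_natCast]
      exact Real.rpow_le_rpow_of_exponent_le (by linarith [abs_nonneg u]) hn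
    have h3 : (1 + |u|) ^ n ≤ 2 ^ n * (1 + |u| ^ n) := by
      have h4 : 1 + |u| ≤ 2 * max 1 |u| := by
        have h5 := le_max_left 1 |u|
        have h6 := le_max_right 1 |u|
        linarith
      have h7 : max 1 |u| ^ n ≤ 1 + |u| ^ n := by
        rcases max_cases 1 |u| with h | h
        · rw [h.1, one_pow]
          have : 0 ≤ |u| ^ n := by positivity
          linarith
        · rw [h.1]
          linarith
      calc (1 + |u|) ^ n ≤ (2 * max 1 |u|) ^ n := pow_le_pow_left₀ (by positivity) h4 n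
        _ = 2 ^ n * max 1 |u| ^ n := mul_pow _ _ _
        _ ≤ _ := mul_le_mul_of_nonneg_left h7 (by positivity)
    calc (1 + |u|) ^ a * ‖b u‖ ≤ (2 ^ n * (1 + |u| ^ n)) * ‖b u‖ :=
          mul_le_mul_of_nonneg_right (h2.trans h3) (norm_nonneg _)
      _ = 2 ^ n * (‖b u‖ + ‖u‖ ^ n * ‖b u‖) := by
          rw [Real.norm_eq_abs]
          ring

end

end Pool.Agent.WK2
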