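import Pool.Agent.WK2.Stmts
import Pool.Agent.WK.Kit

/-!
# MP_7d2497_an, squad WK2: row ADI
-/

set_option autoImplicit false

namespace Pool.Agent.WK2

open MeasureTheory Filter Topology Complex
open Pool.Agent.H78E Pool.Agent.WK

noncomputable section

namespace ADI

lemma pairhalf {φ : ℝ → ℝ} {f : ℝ → ℂ} (hf : LP φ f) {G : ℝ → ℂ} {A : ℝ}
    (hA : ∀ t : ℝ, 0 ≤ t → ‖G t‖ ≤ A * φ t) : ‖∫ t, f t * G t‖ ≤ A * ∫ t, φ t * ‖f t‖ := by
  refine (norm_integral_le_of_norm_le (hf.1.2.const_mul A)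
    (Eventually.of_forall fun t => ?_)).trans_eq (integral_const_mul _ _)
  rw [norm_mul]
  rcases lt_or_ge t 0 with h | h
  · rw [hf.2 t h, norm_zero, zero_mul, mul_zero, mul_zero]
  · calc ‖f t‖ * ‖G t‖ ≤ ‖f t‖ * (A * φ t) := mul_le_mul_of_nonneg_left (hA t h) (norm_nonneg _)
      _ = A * (φ t * ‖f t‖) := by ring

lemma expR_zero (x : ℝ) : expR x 0 = 1 := by
  unfold expR
  simp

lemma bound_nonneg {φ : ℝ → ℝ} (hφ : IsWeight φ) {G : ℝ → ℂ} {A : ℝ}
    (hA : ∀ t : ℝ, 0 ≤ t → ‖G t‖ ≤ A * φ t) : 0 ≤ A := by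
  have h1 := (norm_nonneg _).trans (hA 0 le_rfl)
  by_contra hcon
  have h2 := mul_neg_of_neg_of_pos (not_le.mp hcon) (wpos hφ 0)
  linarith

lemma pair0_ES {f : ℝ → ℂ} (hf : Integrable f) (F : Finset ℝ) (c : ℝ → ℂ) :
    ∫ t, f t * ES F c t = ∑ x ∈ F, c x * FT f (x : ℂ) := by
  have h := pair_ES hf F c 0
  simp only [add_zero, expR_zero, mul_one] at h
  exact h

end ADI

open ADI in
theorem adi : AdiStmt := by
  classical
  intro φ hφ K hK hU R C hI
  have hfin := hK R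
  choose! u hu1 hu2 hu3 using hU
  set K0 : Finset ℝ := hfin.toFinset with hK0
  set m : ℝ := ∑ x ∈ K0, ∫ t, φ t * ‖u x t‖ with hm
  have hmn : ∀ x : ℝ, 0 ≤ ∫ t, φ t * ‖u x t‖ := fun x =>
    integral_nonneg fun t => mul_nonneg (wpos hφ t).le (norm_nonneg _)
  have hm0 : 0 ≤ m := Finset.sum_nonneg fun x _ => hmn x
  refine ⟨C * (1 + m) + m, fun F c A hF hA t ht => ?_⟩
  have hA0 := bound_nonneg hφ hA
  set F0 := F.filter (fun x => |x| < R) with hF0
  set F1 := F.filter (fun x => ¬ |x| < R) with hF1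
  have hsplit : ∀ s : ℝ, ES F c s = ES F0 c s + ES F1 c s := by
    intro s
    unfold ES
    exact (Finset.sum_filter_add_sum_filter_not F (fun x => |x| < R) _).symm
  have hc : ∀ x ∈ F0, ‖c x‖ ≤ A * ∫ t, φ t * ‖u x t‖ := by
    intro x hx
    rw [hF0, Finset.mem_filter] at hx
    have hxK : x ∈ K := hF hx.1
    have h1 := pair0_ES (LP.integrable hφ (hu1 x hxK)) F c
    rw [Finset.sum_eq_single x] at h1
    · rw [hu2 x hxK, mul_one] at h1
      rw [← h1]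
      exact pairhalf (hu1 x hxK) hA
    · intro y hy hyx
      rw [hu3 x hxK y (hF hy) hyx, mul_zero]
    · intro h
      exact absurd hx.1 h
  have hP0 : ∀ s : ℝ, ‖ES F0 c s‖ ≤ m * A * φ s := by
    intro s
    refine (ES_norm_le F0 c s).trans ?_
    have h1 : ∑ x ∈ F0, ‖c x‖ ≤ ∑ x ∈ F0, A * ∫ t, φ t * ‖u x t‖ := Finset.sum_le_sum hc
    have h2 : ∑ x ∈ F0, A * ∫ t, φ t * ‖u x t‖ ≤ ∑ x ∈ K0, A * ∫ t, φ t * ‖u x t‖ := by
      apply Finset.sum_le_sum_of_subset_of_nonneg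
      · intro x hx
        rw [hF0, Finset.mem_filter] at hx
        rw [hK0, Set.Finite.mem_toFinset]
        exact ⟨hF hx.1, abs_le.mp hx.2.le⟩
      · intro x _ _
        exact mul_nonneg hA0 (hmn x)
    have h3 : ∑ x ∈ K0, A * ∫ t, φ t * ‖u x t‖ = m * A := by
      rw [hm, Finset.sum_mul]
      exact Finset.sum_congr rfl fun x _ => mul_comm _ _
    refine ((h1.trans h2).trans_eq h3).trans ?_
    exact le_mul_of_one_le_right (mul_nonneg hm0 hA0) (hφ.one_le s)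
  have hP1 : ∀ s : ℝ, 0 ≤ s → ‖ES F1 c s‖ ≤ ((1 + m) * A) * φ s := by
    intro s hs
    have h1 : ES F1 c s = ES F c s - ES F0 c s := by
      rw [hsplit s]
      ring
    rw [h1]
    refine (norm_sub_le _ _).trans ((add_le_add (hA s hs) (hP0 s)).trans (le_of_eq ?_))
    ring
  have hsub : (F1 : Set ℝ) ⊆ {x | x ∈ K ∧ R ≤ |x|} := by
    intro x hx
    rw [Finset.mem_coe, hF1, Finset.mem_filter, not_lt] at hx
    exact ⟨hF hx.1, hx.2⟩
  have h2 := hI F1 c ((1 + m) * A) hsub hP1 t ht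
  rw [hsplit t]
  refine (norm_add_le _ _).trans ((add_le_add (hP0 t) h2).trans (le_of_eq ?_))
  ring

end

end Pool.Agent.WK2
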