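import Pool.Agent.WK2.Stmts
import Pool.Agent.WK.Spd
import Pool.Agent.WK.Nim

/-!
# MP_7d2497_an, squad WK2, row AIK (helper68): adapted approximate identities from density
-/

set_option autoImplicit false

namespace Pool.Agent.WK2

open MeasureTheory Filter Topology Complex
open Pool.Agent.H78E Pool.Agent.WK

noncomputable section

theorem aik (qai : QaiStmt) : AikStmt := by
  intro φ hφ K hD
  obtain ⟨⟨D, hq⟩, hlim⟩ := qai φ hφ
  have hq1 : ∀ n : ℕ, LP φ (q ((n : ℝ) + 1)) ∧ ∫ t : ℝ, φ t * ‖q ((n : ℝ) + 1) t‖ ≤ D := fun n =>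
    hq ((n : ℝ) + 1) (by
      have : (0 : ℝ) ≤ (n : ℝ) := Nat.cast_nonneg n
      linarith)
  have hex : ∀ n : ℕ, ∃ f' : ℝ → ℂ, LP φ f' ∧
      (∃ F : Finset ℝ, (∀ x ∈ F, x ∈ K ∧ x ∉ (∅ : Set ℝ)) ∧
        ∀ x ∈ K, x ∉ F → FT f' (x : ℂ) = 0) ∧
      ∫ t : ℝ, φ t * ‖q ((n : ℝ) + 1) t - f' t‖ < 1 / ((n : ℝ) + 1) := fun n =>
    hD (q ((n : ℝ) + 1)) (hq1 n).1 (fun x hx => absurd hx (Set.notMem_empty x)) _
      (by positivity)
  choose f hf1 hf2 hf3 using hex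
  choose F hF1 hF2 using hf2
  have hpos : ∀ t : ℝ, 0 ≤ φ t := fun t => zero_le_one.trans (hφ.one_le t)
  have hd : ∀ n : ℕ, LP φ (fun t => q ((n : ℝ) + 1) t - f n t) := fun n =>
    H25.LP_sub hφ (hq1 n).1 (hf1 n)
  refine ⟨f, F, D + 1, fun n => ⟨hf1 n, ?_⟩, fun n => ⟨fun x hx => (hF1 n x hx).1, hF2 n⟩, ?_⟩
  · have h1 : ∫ t : ℝ, φ t * ‖f n t‖ ≤ ∫ t : ℝ, (φ t * ‖q ((n : ℝ) + 1) t‖ +
        φ t * ‖q ((n : ℝ) + 1) t - f n t‖) := by
      refine integral_mono (hf1 n).1.2 ((hq1 n).1.1.2.add (hd n).1.2) fun t => ?_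
      change φ t * ‖f n t‖ ≤ φ t * ‖q ((n : ℝ) + 1) t‖ + φ t * ‖q ((n : ℝ) + 1) t - f n t‖
      rw [← mul_add]
      refine mul_le_mul_of_nonneg_left ?_ (hpos t)
      calc ‖f n t‖ = ‖q ((n : ℝ) + 1) t - (q ((n : ℝ) + 1) t - f n t)‖ := by
            rw [sub_sub_cancel]
        _ ≤ _ := norm_sub_le _ _
    rw [integral_add (hq1 n).1.1.2 (hd n).1.2] at h1
    have h2 := hf3 n
    have h3 : 1 / ((n : ℝ) + 1) ≤ 1 := by
      rw [div_le_one (by positivity)]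
      have : (0 : ℝ) ≤ (n : ℝ) := Nat.cast_nonneg n
      linarith
    linarith [(hq1 n).2]
  · intro ψ hψ hψC
    obtain ⟨C, hC⟩ := hψC
    have hψL : LInf φ ψ := ⟨hψ.aestronglyMeasurable, C, ae_of_all _ hC⟩
    have hC0 : 0 ≤ C := by
      by_contra hcon
      have h1 : C * φ 0 < 0 :=
        mul_neg_of_neg_of_pos (not_le.1 hcon) (lt_of_lt_of_le one_pos (hφ.one_le 0))
      linarith [norm_nonneg (ψ 0), hC 0]
    have h0 := hlim ψ hψ ⟨C, hC⟩
    have hdiff : Tendsto (fun n : ℕ => ∫ t : ℝ, (q ((n : ℝ) + 1) t - f n t) * ψ t) atTop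
        (𝓝 0) := by
      have hb : Tendsto (fun n : ℕ => C * (1 / ((n : ℝ) + 1))) atTop (𝓝 0) := by
        have := tendsto_one_div_add_atTop_nhds_zero_nat (𝕜 := ℝ)
        simpa using this.const_mul C
      refine squeeze_zero_norm (fun n => ?_) hb
      calc ‖∫ t : ℝ, (q ((n : ℝ) + 1) t - f n t) * ψ t‖
          ≤ ∫ t : ℝ, ‖(q ((n : ℝ) + 1) t - f n t) * ψ t‖ := norm_integral_le_integral_norm _
        _ ≤ ∫ t : ℝ, C * (φ t * ‖q ((n : ℝ) + 1) t - f n t‖) := by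
            refine integral_mono ((hd n).1.mulInt72 hψL).norm ((hd n).1.2.const_mul C)
              fun t => ?_
            change ‖(q ((n : ℝ) + 1) t - f n t) * ψ t‖ ≤ _
            rw [norm_mul]
            calc ‖q ((n : ℝ) + 1) t - f n t‖ * ‖ψ t‖ ≤
                ‖q ((n : ℝ) + 1) t - f n t‖ * (C * φ t) :=
                  mul_le_mul_of_nonneg_left (hC t) (norm_nonneg _)
              _ = C * (φ t * ‖q ((n : ℝ) + 1) t - f n t‖) := by ring
        _ = C * ∫ t : ℝ, φ t * ‖q ((n : ℝ) + 1) t - f n t‖ := integral_const_mul _ _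
        _ ≤ C * (1 / ((n : ℝ) + 1)) := mul_le_mul_of_nonneg_left (hf3 n).le hC0
    have h1 := h0.sub hdiff
    rw [sub_zero] at h1
    refine h1.congr fun n => ?_
    rw [← integral_sub ((hq1 n).1.1.mulInt72 hψL) ((hd n).1.mulInt72 hψL)]
    congr 1
    funext t
    ring

end

end Pool.Agent.WK2
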