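import Pool.Agent.WK2.Kit

/-!
# MP_7d2497_an, squad WK2, row CL: exponential sums with frequencies far out
-/

set_option autoImplicit false

namespace Pool.Agent.WK2

open MeasureTheory Filter Topology Complex
open Pool.Agent.H78E Pool.Agent.WK
open Pool.Agent.WKS

namespace ClAux

noncomputable section

variable {φ : ℝ → ℝ}

theorem sum_bound (hφ : IsWeight φ) (F : Y) (S : Finset ℝ) (c : ℝ → ℂ) (B : ℝ)
    (hB : ∀ t : ℝ, ‖ES S c t‖ ≤ B * φ t) :
    ‖∑ x ∈ S, c x * chiW φ (x : ℂ) F‖ ≤ B * ‖F‖ := by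
  rw [sum_chiW, normW_eq hφ, ← integral_const_mul]
  have hi : Integrable (fun t : ℝ => φ t * ‖((dv φ F : X) : ℝ → ℂ) t‖) volume := by
    refine (L1.integrable_coeFn (F : X)).norm.congr ?_
    filter_upwards [coe_eq_mul_dv hφ F] with t ht
    rw [ht, norm_mul, Complex.norm_real, Real.norm_of_nonneg (one_le_max_zero hφ t).le]
  refine (norm_integral_le_integral_norm _).trans
    (integral_mono_of_nonneg (Eventually.of_forall fun t => norm_nonneg _) (hi.const_mul B)
      (Eventually.of_forall fun t => ?_))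
  simp only [norm_mul]
  calc ‖((dv φ F : X) : ℝ → ℂ) t‖ * ‖ES S c t‖
      ≤ ‖((dv φ F : X) : ℝ → ℂ) t‖ * (B * φ t) :=
        mul_le_mul_of_nonneg_left (hB t) (norm_nonneg _)
    _ = B * (φ t * ‖((dv φ F : X) : ℝ → ℂ) t‖) := by ring

theorem ES_twist (S : Finset ℝ) (c : ℝ → ℂ) (h t : ℝ) :
    ES S (fun x => c x * Complex.exp (-(Complex.I * (h : ℂ) * (x : ℂ)))) t = ES S c (t + h) := by
  unfold ES
  refine Finset.sum_congr rfl fun x _ => ?_
  unfold expR
  rw [mul_assoc, ← Complex.exp_add]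
  congr 2
  push_cast
  ring

theorem twist_bound (hφ : IsWeight φ) (S : Finset ℝ) (c : ℝ → ℂ) {B : ℝ} (hB0 : 0 ≤ B)
    (hB : ∀ t : ℝ, ‖ES S c t‖ ≤ B * φ t) (h t : ℝ) :
    ‖ES S (fun x => c x * Complex.exp (-(Complex.I * (h : ℂ) * (x : ℂ)))) t‖ ≤
      (B * φ h) * φ t := by
  rw [ES_twist]
  calc ‖ES S c (t + h)‖ ≤ B * φ (t + h) := hB _
    _ ≤ B * (φ t * φ h) := mul_le_mul_of_nonneg_left (hφ.submul t h) hB0
    _ = (B * φ h) * φ t := by ring

/-- The difference functional. -/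
theorem diff_bound1 (hφ : IsWeight φ) (F : Y) (S : Finset ℝ) (c : ℝ → ℂ) {B : ℝ} (hB0 : 0 ≤ B)
    (hB : ∀ t : ℝ, ‖ES S c t‖ ≤ B * φ t) (h : ℝ) :
    ‖∑ x ∈ S, c x * (1 - Complex.exp (-(Complex.I * (h : ℂ) * (x : ℂ)))) * chiW φ (x : ℂ) F‖ ≤
      B * ((1 + φ h) * ‖F‖) := by
  have e : ∑ x ∈ S, c x * (1 - Complex.exp (-(Complex.I * (h : ℂ) * (x : ℂ)))) *
      chiW φ (x : ℂ) F = ∑ x ∈ S, c x * chiW φ (x : ℂ) F -
        ∑ x ∈ S, (c x * Complex.exp (-(Complex.I * (h : ℂ) * (x : ℂ)))) * chiW φ (x : ℂ) F := by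
    rw [← Finset.sum_sub_distrib]
    exact Finset.sum_congr rfl fun x _ => by ring
  rw [e]
  have h1 := sum_bound hφ F S c B hB
  have h2 := sum_bound hφ F S (fun x => c x * Complex.exp (-(Complex.I * (h : ℂ) * (x : ℂ))))
    (B * φ h) (twist_bound hφ S c hB0 hB h)
  calc _ ≤ B * ‖F‖ + B * φ h * ‖F‖ := (norm_sub_le _ _).trans (add_le_add h1 h2)
    _ = B * ((1 + φ h) * ‖F‖) := by ring

theorem diff_bound2 (hφ : IsWeight φ) (F : Y) (S : Finset ℝ) (c : ℝ → ℂ) {B : ℝ} (hB0 : 0 ≤ B)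
    (hB : ∀ t : ℝ, ‖ES S c t‖ ≤ B * φ t) (h : ℝ) :
    ‖∑ x ∈ S, c x * (1 - Complex.exp (-(Complex.I * (h : ℂ) * (x : ℂ)))) * chiW φ (x : ℂ) F‖ ≤
      B * (φ (-|h|) * ‖F - YW φ |h| F‖) := by
  have hn : 0 ≤ ‖F - YW φ |h| F‖ := norm_nonneg _
  have h1φ : 1 ≤ φ (-|h|) := hφ.one_le _
  rcases le_total 0 h with h0 | h0
  · rw [abs_of_nonneg h0] at hn h1φ ⊢
    have e : ∑ x ∈ S, c x * (1 - Complex.exp (-(Complex.I * (h : ℂ) * (x : ℂ)))) *
        chiW φ (x : ℂ) F = ∑ x ∈ S, c x * chiW φ (x : ℂ) (F - YW φ h F) := by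
      refine Finset.sum_congr rfl fun x _ => ?_
      rw [map_sub, chiW_YW_real hφ x h0]
      ring
    rw [e]
    calc _ ≤ B * ‖F - YW φ h F‖ := sum_bound hφ _ S c B hB
      _ ≤ B * (φ (-h) * ‖F - YW φ h F‖) := by
          refine mul_le_mul_of_nonneg_left ?_ hB0
          nlinarith
  · rw [abs_of_nonpos h0] at hn h1φ ⊢
    rw [neg_neg] at h1φ ⊢
    have h0' : 0 ≤ -h := by linarith
    have e : ∑ x ∈ S, c x * (1 - Complex.exp (-(Complex.I * (h : ℂ) * (x : ℂ)))) *
        chiW φ (x : ℂ) F =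
        -∑ x ∈ S, (c x * Complex.exp (-(Complex.I * (h : ℂ) * (x : ℂ)))) *
          chiW φ (x : ℂ) (F - YW φ (-h) F) := by
      rw [← Finset.sum_neg_distrib]
      refine Finset.sum_congr rfl fun x _ => ?_
      rw [map_sub, chiW_YW_real hφ x h0']
      have h3 : Complex.exp (-(Complex.I * (h : ℂ) * (x : ℂ))) *
          Complex.exp (-(Complex.I * ((-h : ℝ) : ℂ) * (x : ℂ))) = 1 := by
        rw [← Complex.exp_add, ← Complex.exp_zero]
        congr 1
        push_cast
        ring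
      linear_combination (-(c x * chiW φ (x : ℂ) F)) * h3
    rw [e, norm_neg]
    calc _ ≤ (B * φ h) * ‖F - YW φ (-h) F‖ :=
          sum_bound hφ _ S _ (B * φ h) (twist_bound hφ S c hB0 hB h)
      _ = B * (φ h * ‖F - YW φ (-h) F‖) := by ring

end

end ClAux

open ClAux in
theorem cl : CLStmt := by
  intro φ hφ hreg F ε hε
  obtain ⟨b, M, r, hMm, hM, hbm, hbi, hb1, hb0⟩ := hreg
  have hM1 : ∀ v : ℝ, 1 ≤ M v := fun v => (hφ.one_le v).trans (hM v v le_rfl)
  have hbi' : Integrable b volume := by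
    refine hbi.mono' hbm (Eventually.of_forall fun v => ?_)
    have := hM1 v
    nlinarith [norm_nonneg (b v)]
  -- the bound
  let g : ℝ → ℝ → ℝ := fun ρ v => ‖b v‖ * min ((1 + M v) * ‖F‖)
    (φ (-|v / ρ|) * ‖F - YW φ |v / ρ| F‖)
  have hcontYW : Continuous fun s : ℝ => YW φ |s| F := by
    have h1 := (YW_continuous hφ F).comp continuous_abs
    have h2 : ((fun s : ℝ => YW φ (max s 0) F) ∘ fun s : ℝ => |s|) = fun s : ℝ => YW φ |s| F := by
      funext s
      simp only [Function.comp]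
      rw [max_eq_left (abs_nonneg s)]
    rwa [h2] at h1
  have hgm : ∀ ρ : ℝ, AEStronglyMeasurable (g ρ) volume := by
    intro ρ
    refine hbm.norm.mul ?_
    have m1 : Measurable fun v : ℝ => (1 + M v) * ‖F‖ := (measurable_const.add hMm).mul_const _
    have m2 : Measurable fun v : ℝ => φ (-|v / ρ|) * ‖F - YW φ |v / ρ| F‖ := by
      have c1 : Measurable fun v : ℝ => -|v / ρ| := by fun_prop
      have c2 : Continuous fun v : ℝ => ‖F - YW φ |v / ρ| F‖ :=
        (continuous_const.sub (hcontYW.comp (continuous_id.div_const ρ))).norm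
      exact (hφ.meas.comp c1).mul c2.measurable
    exact (m1.min m2).aestronglyMeasurable
  have hdom : Integrable (fun v : ℝ => 2 * ‖F‖ * (M v * ‖b v‖)) volume := hbi.const_mul _
  have hg0 : ∀ ρ v : ℝ, 0 ≤ g ρ v := by
    intro ρ v
    have := hM1 v
    have h2 := (one_le_max_zero hφ (-|v / ρ|)).le
    exact mul_nonneg (norm_nonneg _) (le_min (mul_nonneg (by linarith) (norm_nonneg _))
      (mul_nonneg h2 (norm_nonneg _)))
  have hgle : ∀ ρ v : ℝ, g ρ v ≤ 2 * ‖F‖ * (M v * ‖b v‖) := by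
    intro ρ v
    have h1 := hM1 v
    have h2 := norm_nonneg F
    calc g ρ v ≤ ‖b v‖ * ((1 + M v) * ‖F‖) :=
          mul_le_mul_of_nonneg_left (min_le_left _ _) (norm_nonneg _)
      _ ≤ ‖b v‖ * ((2 * M v) * ‖F‖) := by
          refine mul_le_mul_of_nonneg_left ?_ (norm_nonneg _)
          exact mul_le_mul_of_nonneg_right (by linarith) h2
      _ = 2 * ‖F‖ * (M v * ‖b v‖) := by ring
  have hgi : ∀ ρ : ℝ, Integrable (g ρ) volume := fun ρ =>
    hdom.mono' (hgm ρ) (Eventually.of_forall fun v => by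
      rw [Real.norm_of_nonneg (hg0 ρ v)]; exact hgle ρ v)
  have hlim : Tendsto (fun n : ℕ => ∫ v : ℝ, g ((n : ℝ) + 1) v) atTop (𝓝 0) := by
    have h1 : Tendsto (fun n : ℕ => ∫ v : ℝ, g ((n : ℝ) + 1) v) atTop
        (𝓝 (∫ v : ℝ, (0 : ℝ))) := by
      refine tendsto_integral_of_dominated_convergence
        (fun v : ℝ => 2 * ‖F‖ * (M v * ‖b v‖)) (fun n => hgm _) hdom (fun n => ?_) ?_
      · exact Eventually.of_forall fun v => by
          rw [Real.norm_of_nonneg (hg0 _ v)]; exact hgle _ v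
      · refine Eventually.of_forall fun v => ?_
        obtain ⟨C, hC, hCb⟩ := local_bound hφ |v|
        have hh : Tendsto (fun n : ℕ => v / ((n : ℝ) + 1)) atTop (𝓝 0) :=
          tendsto_const_nhds.div_atTop
            (tendsto_atTop_add_const_right _ 1 tendsto_natCast_atTop_atTop)
        have h2 : Tendsto (fun n : ℕ => ‖F - YW φ |v / ((n : ℝ) + 1)| F‖) atTop (𝓝 0) := by
          have hc : Continuous fun s : ℝ => ‖F - YW φ |s| F‖ :=
            (continuous_const.sub hcontYW).norm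
          have h3 := (hc.tendsto 0).comp hh
          have h4 : ‖F - YW φ |(0 : ℝ)| F‖ = 0 := by
            rw [abs_zero, YW_zero hφ, sub_self, norm_zero]
          rw [h4] at h3
          exact h3
        have h5 : Tendsto (fun n : ℕ => ‖b v‖ * (C * ‖F - YW φ |v / ((n : ℝ) + 1)| F‖)) atTop
            (𝓝 0) := by
          have := (h2.const_mul C).const_mul ‖b v‖
          simpa using this
        refine squeeze_zero (fun n => hg0 _ v) (fun n => ?_) h5
        refine mul_le_mul_of_nonneg_left ((min_le_right _ _).trans ?_) (norm_nonneg _)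
        refine mul_le_mul_of_nonneg_right (hCb _ ?_) (norm_nonneg _)
        rw [abs_neg, abs_abs, abs_div]
        have h6 : (1 : ℝ) ≤ |(n : ℝ) + 1| := by
          rw [abs_of_pos (by positivity)]
          have : (0 : ℝ) ≤ n := Nat.cast_nonneg n
          linarith
        exact div_le_self (abs_nonneg v) h6
    simpa using h1
  obtain ⟨N, hN⟩ := ((tendsto_order.mp hlim).2 ε hε).exists
  set ρ : ℝ := (N : ℝ) + 1 with hρ
  have hρ1 : 1 ≤ ρ := by
    have : (0 : ℝ) ≤ N := Nat.cast_nonneg N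
    rw [hρ]; linarith
  have hρ0 : 0 < ρ := by linarith
  refine ⟨|r| * ρ, fun S c B hS hB => ?_⟩
  have hB0 : 0 ≤ B := by
    have h1 := (norm_nonneg _).trans (hB 0)
    have h2 := one_le_max_zero hφ 0
    by_contra h3
    push Not at h3
    nlinarith
  -- the kernel at the frequencies
  have hker : ∀ x ∈ S, ∫ v : ℝ, b v * (1 - Complex.exp (-(Complex.I * ((v / ρ : ℝ) : ℂ) *
      (x : ℂ)))) = 1 := by
    intro x hx
    have h1 : r ≤ |x / ρ| := by
      rw [abs_div, abs_of_pos hρ0, le_div_iff₀ hρ0]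
      exact (mul_le_mul_of_nonneg_right (le_abs_self r) hρ0.le).trans (hS x hx)
    have h2 := hb0 (x / ρ) h1
    have h3 : (fun v : ℝ => b v * (1 - Complex.exp (-(Complex.I * ((v / ρ : ℝ) : ℂ) *
        (x : ℂ))))) = fun v : ℝ => b v - b v * Complex.exp (-(Complex.I * (v : ℂ) *
        ((x / ρ : ℝ) : ℂ))) := by
      funext v
      have : -(Complex.I * ((v / ρ : ℝ) : ℂ) * (x : ℂ)) =
          -(Complex.I * (v : ℂ) * ((x / ρ : ℝ) : ℂ)) := by
        push_cast
        ring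
      rw [this]
      ring
    have hie : Integrable (fun v : ℝ => b v * Complex.exp (-(Complex.I * (v : ℂ) *
        ((x / ρ : ℝ) : ℂ)))) volume := by
      refine hbi'.mul_bdd (c := 1) ?_ ?_
      · apply Continuous.aestronglyMeasurable
        fun_prop
      · refine Eventually.of_forall fun v => ?_
        rw [Complex.norm_exp]
        simp
    rw [h3, integral_sub hbi' hie, hb1, h2, sub_zero]
  have hid : ∑ x ∈ S, c x * chiW φ (x : ℂ) F = ∫ v : ℝ, b v * ∑ x ∈ S, c x *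
      (1 - Complex.exp (-(Complex.I * ((v / ρ : ℝ) : ℂ) * (x : ℂ)))) * chiW φ (x : ℂ) F := by
    have hi : ∀ x ∈ S, Integrable (fun v : ℝ => b v * (c x *
        (1 - Complex.exp (-(Complex.I * ((v / ρ : ℝ) : ℂ) * (x : ℂ)))) * chiW φ (x : ℂ) F))
        volume := by
      intro x _
      refine hbi'.mul_bdd (c := ‖c x‖ * 2 * ‖chiW φ (x : ℂ) F‖) ?_ ?_
      · apply Continuous.aestronglyMeasurable
        fun_prop
      · refine Eventually.of_forall fun v => ?_
        rw [norm_mul, norm_mul]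
        refine mul_le_mul_of_nonneg_right (mul_le_mul_of_nonneg_left ?_ (norm_nonneg _))
          (norm_nonneg _)
        have h4 : ‖Complex.exp (-(Complex.I * ((v / ρ : ℝ) : ℂ) * (x : ℂ)))‖ = 1 := by
          rw [Complex.norm_exp]
          have : (-(Complex.I * ((v / ρ : ℝ) : ℂ) * (x : ℂ))).re = 0 := by
            simp [Complex.mul_re, Complex.mul_im, Complex.div_re, Complex.div_im]
          rw [this, Real.exp_zero]
        calc _ ≤ ‖(1 : ℂ)‖ + ‖Complex.exp (-(Complex.I * ((v / ρ : ℝ) : ℂ) * (x : ℂ)))‖ :=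
              norm_sub_le _ _
          _ = 2 := by rw [h4, norm_one]; norm_num
    simp_rw [Finset.mul_sum]
    rw [integral_finsetSum S hi]
    refine Finset.sum_congr rfl fun x hx => ?_
    have e2 : (fun v : ℝ => b v * (c x *
        (1 - Complex.exp (-(Complex.I * ((v / ρ : ℝ) : ℂ) * (x : ℂ)))) * chiW φ (x : ℂ) F)) =
        fun v : ℝ => (b v * (1 - Complex.exp (-(Complex.I * ((v / ρ : ℝ) : ℂ) * (x : ℂ))))) *
          (c x * chiW φ (x : ℂ) F) := by
      funext v
      ring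
    rw [e2, integral_mul_const, hker x hx, one_mul]
  rw [hid]
  have hle : ‖∫ v : ℝ, b v * ∑ x ∈ S, c x *
      (1 - Complex.exp (-(Complex.I * ((v / ρ : ℝ) : ℂ) * (x : ℂ)))) * chiW φ (x : ℂ) F‖ ≤
      ∫ v : ℝ, B * g ρ v := by
    refine (norm_integral_le_integral_norm _).trans
      (integral_mono_of_nonneg (Eventually.of_forall fun v => norm_nonneg _)
        ((hgi ρ).const_mul B) (Eventually.of_forall fun v => ?_))
    simp only [norm_mul]
    have h1 := diff_bound1 hφ F S c hB0 hB (v / ρ)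
    have h2 := diff_bound2 hφ F S c hB0 hB (v / ρ)
    have h3 : φ (v / ρ) ≤ M v := by
      apply hM
      rw [abs_div, abs_of_pos hρ0]
      exact div_le_self (abs_nonneg v) hρ1
    have h4 : B * ((1 + φ (v / ρ)) * ‖F‖) ≤ B * ((1 + M v) * ‖F‖) :=
      mul_le_mul_of_nonneg_left (mul_le_mul_of_nonneg_right (by linarith) (norm_nonneg _)) hB0
    have h5 : ‖∑ x ∈ S, c x * (1 - Complex.exp (-(Complex.I * ((v / ρ : ℝ) : ℂ) * (x : ℂ)))) *
        chiW φ (x : ℂ) F‖ ≤ B * min ((1 + M v) * ‖F‖)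
          (φ (-|v / ρ|) * ‖F - YW φ |v / ρ| F‖) := by
      rcases min_cases ((1 + M v) * ‖F‖) (φ (-|v / ρ|) * ‖F - YW φ |v / ρ| F‖) with h | h
      · rw [h.1]; exact h1.trans h4
      · rw [h.1]; exact h2
    calc _ ≤ ‖b v‖ * (B * min ((1 + M v) * ‖F‖) (φ (-|v / ρ|) * ‖F - YW φ |v / ρ| F‖)) :=
          mul_le_mul_of_nonneg_left h5 (norm_nonneg _)
      _ = B * g ρ v := by simp only [g]; ring
  refine hle.trans ?_
  rw [integral_const_mul]
  calc B * ∫ v : ℝ, g ρ v ≤ B * ε := mul_le_mul_of_nonneg_left hN.le hB0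
    _ = ε * B := by ring

end Pool.Agent.WK2
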