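import Pool.Agent.WK.Stmts
import Pool.Agent.Helper67_WKS.Syn

/-!
# MP_7d2497_an, squad WK2: regular weights, the inequality far out
-/

set_option autoImplicit false

namespace Pool.Agent.WK2

open MeasureTheory Filter Topology Complex
open Pool.Agent.H78E Pool.Agent.WK

noncomputable section

/-- Regular weights: there is an integrable function with integral one and compactly supported
transform, integrable against a radial majorant of the weight. -/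
def Reg (φ : ℝ → ℝ) : Prop :=
  ∃ (b : ℝ → ℂ) (M : ℝ → ℝ) (r : ℝ), Measurable M ∧ (∀ s u : ℝ, |s| ≤ |u| → φ s ≤ M u) ∧
    AEStronglyMeasurable b volume ∧ Integrable (fun u : ℝ => M u * ‖b u‖) ∧ ∫ u : ℝ, b u = 1 ∧
    ∀ x : ℝ, r ≤ |x| → ∫ u : ℝ, b u * Complex.exp (-(Complex.I * (u : ℂ) * (x : ℂ))) = 0

/-- The restriction inequality holds for the part of `L` far out. -/
def FarI (φ : ℝ → ℝ) (L : Set ℝ) : Prop := ∃ R C : ℝ, Ineq φ {x | x ∈ L ∧ R ≤ |x|} C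

/-- Separating functions at the points of `K`. -/
def HasU (φ : ℝ → ℝ) (K : Set ℝ) : Prop :=
  ∀ x ∈ K, ∃ u : ℝ → ℂ, LP φ u ∧ FT u (x : ℂ) = 1 ∧ ∀ y ∈ K, y ≠ x → FT u (y : ℂ) = 0

/-- Functions in `J_K` which do not vanish at a given point outside `K`. -/
def HasN (φ : ℝ → ℝ) (K : Set ℝ) : Prop :=
  ∀ x : ℝ, x ∉ K → ∃ f : ℝ → ℂ, JK φ K f ∧ FT f (x : ℂ) ≠ 0

/-- Approximate identities adapted to `K`. -/
def HasA (φ : ℝ → ℝ) (K : Set ℝ) : Prop :=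
  ∃ (f : ℕ → ℝ → ℂ) (F : ℕ → Finset ℝ) (D : ℝ),
    (∀ n : ℕ, LP φ (f n) ∧ ∫ t : ℝ, φ t * ‖f n t‖ ≤ D) ∧
    (∀ n : ℕ, (F n : Set ℝ) ⊆ K ∧ ∀ x ∈ K, x ∉ F n → FT (f n) (x : ℂ) = 0) ∧
    ∀ ψ : ℝ → ℂ, Continuous ψ → (∃ C : ℝ, ∀ t : ℝ, ‖ψ t‖ ≤ C * φ t) →
      Tendsto (fun n : ℕ => ∫ t : ℝ, f n t * ψ t) atTop (𝓝 (ψ 0))

end

end Pool.Agent.WK2
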