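import Pool.Agent.WK2.Stmts

/-!
# MP_7d2497_an, squad WK2: row DUA (duality for finite sets)
-/

set_option autoImplicit false

namespace Pool.Agent.WK2

open MeasureTheory Filter Topology Complex
open Pool.Agent.H78E Pool.Agent.WK
open Pool.Agent.WKS (dv YW WS chiW toYW coe_eq_mul_dv chiW_rep local_bound)

noncomputable section

namespace Dua

/-- Hahn-Banach, distance to a closed subspace -/
theorem hb {E : Type} [NormedAddCommGroup E] [NormedSpace ℂ E] (I : Submodule ℂ E)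
    (hI : IsClosed (I : Set E)) (f : E) : ∃ l : E →L[ℂ] ℂ, ‖l‖ ≤ 1 ∧ (∀ y ∈ I, l y = 0) ∧
      ∀ r : ℝ, ‖l f‖ < r → ∃ m ∈ I, ‖f - m‖ < r := by
  have := hI
  obtain ⟨g, hg1, hg2⟩ := exists_dual_vector'' ℂ (I.mkQL f)
  have hle : ∀ y : E, ‖I.mkQL y‖ ≤ ‖y‖ := fun y => Submodule.Quotient.norm_mk_le I y
  refine ⟨g.comp I.mkQL, ?_, ?_, ?_⟩
  · refine ContinuousLinearMap.opNorm_le_bound _ zero_le_one fun y => ?_
    calc ‖(g.comp I.mkQL) y‖ = ‖g (I.mkQL y)‖ := rfl
      _ ≤ 1 * ‖I.mkQL y‖ := ContinuousLinearMap.le_of_opNorm_le _ hg1 _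
      _ ≤ 1 * ‖y‖ := mul_le_mul_of_nonneg_left (hle y) zero_le_one
  · intro y hy
    have e1 : I.mkQL y = 0 := (Submodule.Quotient.mk_eq_zero _).mpr hy
    change g (I.mkQL y) = 0
    rw [e1, map_zero]
  · intro r hr
    have h1 : ‖g (I.mkQL f)‖ < r := hr
    rw [hg2] at h1
    have h2 : ‖I.mkQL f‖ < r := by
      have h3 : ‖((‖I.mkQL f‖ : ℝ) : ℂ)‖ = ‖I.mkQL f‖ := by
        rw [Complex.norm_real]
        exact Real.norm_of_nonneg (norm_nonneg _)
      exact h3 ▸ h1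
    obtain ⟨m, hm1, hm2⟩ := Submodule.Quotient.norm_mk_lt (S := I) (I.mkQL f)
      (ε := r - ‖I.mkQL f‖) (by linarith)
    refine ⟨f - m, (Submodule.Quotient.eq I).mp hm1.symm, ?_⟩
    rw [sub_sub_cancel]
    linarith

/-- The annihilated subspace. -/
def I (φ : ℝ → ℝ) (S : Finset ℝ) : Submodule ℂ Y where
  carrier := {g | ∀ x ∈ S, chiW φ (x : ℂ) g = 0}
  add_mem' := by
    intro a b ha hb x hx
    rw [map_add, ha x hx, hb x hx, add_zero]
  zero_mem' := by
    intro x hx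
    rw [map_zero]
  smul_mem' := by
    intro c a ha x hx
    rw [map_smul, ha x hx, smul_zero]

theorem mem_I (φ : ℝ → ℝ) (S : Finset ℝ) (g : Y) :
    g ∈ I φ S ↔ ∀ x ∈ S, chiW φ (x : ℂ) g = 0 := Iff.rfl

theorem closed (φ : ℝ → ℝ) (S : Finset ℝ) : IsClosed (I φ S : Set Y) := by
  have h : (I φ S : Set Y) = ⋂ x ∈ S, {g : Y | chiW φ (x : ℂ) g = 0} := by
    ext g
    simp [mem_I]
  rw [h]
  exact isClosed_biInter fun x _ => isClosed_eq (chiW φ (x : ℂ)).continuous continuous_const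

/-- functionals vanishing on the annihilated subspace are combinations -/
theorem comb (φ : ℝ → ℝ) (S : Finset ℝ) (l : Y →L[ℂ] ℂ) (h : ∀ g ∈ I φ S, l g = 0) :
    ∃ c : ℝ → ℂ, ∀ g : Y, l g = ∑ x ∈ S, c x * chiW φ (x : ℂ) g := by
  classical
  have h1 : ⨅ i : S, LinearMap.ker ((chiW φ ((i : ℝ) : ℂ) : Y →L[ℂ] ℂ) : Y →ₗ[ℂ] ℂ) ≤
      LinearMap.ker (l : Y →ₗ[ℂ] ℂ) := by
    intro g hg
    rw [Submodule.mem_iInf] at hg
    rw [LinearMap.mem_ker]
    refine h g ?_
    rw [mem_I]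
    intro x hx
    exact hg ⟨x, hx⟩
  obtain ⟨c, hc⟩ := (Submodule.mem_span_range_iff_exists_fun ℂ).1
    (mem_span_of_iInf_ker_le_ker h1)
  refine ⟨fun x => if hx : x ∈ S then c ⟨x, hx⟩ else 0, ?_⟩
  intro g
  have h2 := LinearMap.congr_fun hc g
  simp only [LinearMap.coe_sum, Finset.sum_apply, LinearMap.smul_apply, smul_eq_mul] at h2
  have h3 : l g = ∑ i : S, c i * chiW φ ((i : ℝ) : ℂ) g := h2.symm
  rw [h3, ← Finset.sum_attach S (fun x => (if hx : x ∈ S then c ⟨x, hx⟩ else 0) *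
    chiW φ (x : ℂ) g)]
  rw [Finset.univ_eq_attach]
  refine Finset.sum_congr rfl fun i _ => ?_
  rw [dif_pos i.2]

/-- the norm in `Y` -/
theorem norm_eq {φ : ℝ → ℝ} (hφ : IsWeight φ) (F : Y) :
    ‖F‖ = ∫ t : ℝ, φ t * ‖((dv φ F : X) : ℝ → ℂ) t‖ := by
  have h1 : ‖F‖ = ‖(F : X)‖ := rfl
  rw [h1, L1.norm_eq_integral_norm]
  apply integral_congr_ae
  filter_upwards [coe_eq_mul_dv hφ F] with t ht
  rw [ht, norm_mul, Complex.norm_real, Real.norm_of_nonneg (zero_le_one.trans (hφ.one_le t))]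

/-- the test elements -/
theorem test {φ : ℝ → ℝ} (hφ : IsWeight φ) {S0 : ℝ} (hS0 : ∀ t : ℝ, |t| ≤ 1 → φ t ≤ S0)
    {t h : ℝ} (ht : 0 ≤ t) (h0 : 0 < h) (h1 : h ≤ 1) :
    ∃ F : Y, ‖F‖ ≤ S0 * φ t ∧ ∀ x : ℝ, chiW φ (x : ℂ) F = (h⁻¹ : ℝ) • ∫ s in t..(t + h), expR x s := by
  have hb : ∀ s ∈ Set.Ioc t (t + h), φ s ≤ S0 * φ t := by
    intro s hs
    have e1 : s = (s - t) + t := by ring
    have e2 := hφ.submul (s - t) t
    rw [← e1] at e2
    refine e2.trans ?_
    refine mul_le_mul_of_nonneg_right (hS0 _ ?_) (zero_le_one.trans (hφ.one_le t))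
    rw [abs_le]
    constructor
    · linarith [hs.1]
    · linarith [hs.2]
  let u : ℝ → ℂ := (Set.Ioc t (t + h)).indicator fun _ => ((h⁻¹ : ℝ) : ℂ)
  have hum : Measurable u := measurable_const.indicator measurableSet_Ioc
  have hun : ∀ s, ‖u s‖ = (Set.Ioc t (t + h)).indicator (fun _ => h⁻¹) s := by
    intro s
    simp only [u]
    by_cases hs : s ∈ Set.Ioc t (t + h)
    · rw [Set.indicator_of_mem hs, Set.indicator_of_mem hs, Complex.norm_real,
        Real.norm_of_nonneg (inv_nonneg.mpr h0.le)]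
    · rw [Set.indicator_of_notMem hs, Set.indicator_of_notMem hs, norm_zero]
  have hfin : Integrable ((Set.Ioc t (t + h)).indicator (fun _ => S0 * φ t * h⁻¹)) volume := by
    refine (integrable_indicator_iff measurableSet_Ioc).mpr ?_
    exact integrableOn_const (by simp)
  have hle : ∀ s, φ s * ‖u s‖ ≤ (Set.Ioc t (t + h)).indicator (fun _ => S0 * φ t * h⁻¹) s := by
    intro s
    rw [hun]
    by_cases hs : s ∈ Set.Ioc t (t + h)
    · rw [Set.indicator_of_mem hs, Set.indicator_of_mem hs]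
      exact mul_le_mul_of_nonneg_right (hb s hs) (inv_nonneg.mpr h0.le)
    · rw [Set.indicator_of_notMem hs, Set.indicator_of_notMem hs, mul_zero]
  have hL : L1 φ u := by
    refine ⟨hum.aestronglyMeasurable, ?_⟩
    refine hfin.mono' (hφ.meas.mul hum.norm).aestronglyMeasurable (Eventually.of_forall fun s => ?_)
    rw [Real.norm_of_nonneg (mul_nonneg (zero_le_one.trans (hφ.one_le s)) (norm_nonneg _))]
    exact hle s
  have hu0 : ∀ᵐ s : ℝ, s < 0 → u s = 0 := by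
    refine Eventually.of_forall fun s hs => ?_
    refine Set.indicator_of_notMem ?_ _
    intro h2
    linarith [h2.1]
  obtain ⟨F, hF⟩ := toYW hφ hL hu0
  refine ⟨F, ?_, ?_⟩
  · rw [norm_eq hφ F]
    have e1 : ∫ s : ℝ, φ s * ‖((dv φ F : X) : ℝ → ℂ) s‖ = ∫ s : ℝ, φ s * ‖u s‖ := by
      apply integral_congr_ae
      filter_upwards [hF] with s hs
      rw [hs]
    rw [e1]
    calc ∫ s : ℝ, φ s * ‖u s‖ ≤
          ∫ s : ℝ, (Set.Ioc t (t + h)).indicator (fun _ => S0 * φ t * h⁻¹) s :=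
          integral_mono hL.2 hfin hle
      _ = S0 * φ t := by
          rw [integral_indicator measurableSet_Ioc, setIntegral_const]
          simp only [Real.volume_real_Ioc_of_le (by linarith : t ≤ t + h), smul_eq_mul]
          rw [add_sub_cancel_left]
          field_simp
  · intro x
    rw [chiW_rep (by simp : ((x : ℝ) : ℂ).im ≤ 0) F]
    have e1 : ∫ s : ℝ, ((dv φ F : X) : ℝ → ℂ) s * expPos (x : ℂ) s =
        ∫ s : ℝ, (Set.Ioc t (t + h)).indicator (fun s => (h⁻¹ : ℝ) • expR x s) s := by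
      apply integral_congr_ae
      filter_upwards [hF] with s hs
      rw [hs]
      simp only [u]
      by_cases hs' : s ∈ Set.Ioc t (t + h)
      · rw [Set.indicator_of_mem hs', Set.indicator_of_mem hs']
        unfold expPos expR
        rw [if_pos (by linarith [hs'.1] : 0 ≤ s)]
        rw [Complex.real_smul]
      · rw [Set.indicator_of_notMem hs', Set.indicator_of_notMem hs', zero_mul]
    rw [e1, integral_indicator measurableSet_Ioc, integral_smul,
      intervalIntegral.integral_of_le (by linarith : t ≤ t + h)]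

theorem cont_expR (x : ℝ) : Continuous (expR x) := by
  unfold expR
  fun_prop

theorem cont_ES (S : Finset ℝ) (c : ℝ → ℂ) : Continuous (ES S c) := by
  unfold ES
  exact continuous_finsetSum _ fun x _ => continuous_const.mul (cont_expR x)

/-- the coefficients of a functional of norm at most one give a bounded sum -/
theorem bound {φ : ℝ → ℝ} (hφ : IsWeight φ) {S0 : ℝ} (hS0 : ∀ t : ℝ, |t| ≤ 1 → φ t ≤ S0)
    (S : Finset ℝ) (c : ℝ → ℂ) (l : Y →L[ℂ] ℂ) (hl : ‖l‖ ≤ 1)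
    (hc : ∀ g : Y, l g = ∑ x ∈ S, c x * chiW φ (x : ℂ) g) {t : ℝ} (ht : 0 ≤ t) :
    ‖ES S c t‖ ≤ S0 * φ t := by
  have hcont := cont_ES S c
  have hd : HasDerivAt (fun v : ℝ => ∫ s in t..v, ES S c s) (ES S c t) t :=
    (hcont.integral_hasStrictDerivAt t t).hasDerivAt
  have h1 := hd.tendsto_slope_zero_right.norm
  refine le_of_tendsto h1 ?_
  have h2 : ∀ᶠ h : ℝ in 𝓝[>] 0, h ∈ Set.Ioc (0 : ℝ) 1 := Ioc_mem_nhdsGT one_pos
  filter_upwards [h2] with h hh
  obtain ⟨F, hF1, hF2⟩ := test hφ hS0 ht hh.1 hh.2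
  rw [intervalIntegral.integral_same, sub_zero]
  have h3 : h⁻¹ • ∫ s in t..(t + h), ES S c s = l F := by
    rw [hc]
    unfold ES
    rw [intervalIntegral.integral_finsetSum]
    · rw [Finset.smul_sum]
      refine Finset.sum_congr rfl fun x _ => ?_
      rw [hF2, intervalIntegral.integral_const_mul, mul_smul_comm]
    · intro x _
      exact (continuous_const.mul (cont_expR x)).intervalIntegrable _ _
  rw [h3]
  calc ‖l F‖ ≤ 1 * ‖F‖ := ContinuousLinearMap.le_of_opNorm_le _ hl F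
    _ ≤ S0 * φ t := by rw [one_mul]; exact hF1

end Dua

/-- DUA. -/
theorem dua : DuaStmt := by
  intro φ hφ
  obtain ⟨C, hC0, hC⟩ := local_bound hφ 1
  have hS0 : ∀ t : ℝ, |t| ≤ 1 → φ t ≤ max 1 C := fun t ht => (hC t ht).trans (le_max_right _ _)
  refine ⟨max 1 C, le_max_left _ _, ?_⟩
  intro S f δ H η hη
  obtain ⟨l, hl, hl0, hr⟩ := Dua.hb (Dua.I φ S) (Dua.closed φ S) f
  obtain ⟨c, hc⟩ := Dua.comb φ S l hl0
  have h3 := H c (fun t ht => Dua.bound hφ hS0 S c l hl hc ht)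
  rw [← hc f] at h3
  obtain ⟨m, hm1, hm2⟩ := hr (δ + η) (by linarith)
  exact ⟨m, hm1, hm2.le⟩

end

end Pool.Agent.WK2
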