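import Pool.Agent.WK2.Stmts
import Pool.Agent.WK.Ext

/-!
# MP_7d2497_an, squad WK2: row EXTG
-/

set_option autoImplicit false

namespace Pool.Agent.WK2

open Pool.Agent.WK

theorem extg (hWlm : WlmStmt) (hCon : ConStmt) (hFub : FubStmt) : ExtgStmt :=
  fun _ hφ K hU hA C hI g hg => extG hWlm hCon hFub hφ K hU hA C hI g hg

end Pool.Agent.WK2
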