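import Pool.Agent.WK2.Adi

/-!
# MP_7d2497_an, squad WK2: row F5
-/

set_option autoImplicit false

namespace Pool.Agent.WK2

open MeasureTheory Filter Topology Complex
open Pool.Agent.H78E Pool.Agent.WK
open Pool.Agent.WKS (dv YW WS chiW ISub annW)

noncomputable section

namespace ADI

lemma chiW_bound {φ : ℝ → ℝ} (hφ : IsWeight φ) (a : Y) (S : Finset ℝ) (c : ℝ → ℂ) {A : ℝ}
    (hA : ∀ t : ℝ, 0 ≤ t → ‖ES S c t‖ ≤ A * φ t) :
    ‖∑ x ∈ S, c x * chiW φ (x : ℂ) a‖ ≤ A * ‖a‖ := by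
  obtain ⟨f, hf1, hf2, hf3⟩ := Pool.Agent.WKS.ofYW hφ a
  have hLP : LP φ f := ⟨hf1, hf2⟩
  have h1 : ∀ x : ℝ, chiW φ (x : ℂ) a = FT f (x : ℂ) := by
    intro x
    rw [FT_eq_expPos hf2]
    have h2 := Pool.Agent.WKS.chiW_rep (φ := φ) (z := (x : ℂ)) (by simp) a
    rw [h2]
    refine integral_congr_ae ?_
    filter_upwards [hf3] with t ht
    rw [ht]
  have h2 : ∑ x ∈ S, c x * chiW φ (x : ℂ) a = ∫ t, f t * ES S c t := by
    rw [pair0_ES (LP.integrable hφ hLP)]
    exact Finset.sum_congr rfl fun x _ => by rw [h1 x]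
  have h3 : ‖a‖ = ∫ t, φ t * ‖f t‖ := by
    have h4 : ‖a‖ = ‖(a : X)‖ := rfl
    rw [h4, L1.norm_eq_integral_norm]
    refine integral_congr_ae ?_
    filter_upwards [hf3, Pool.Agent.WKS.coe_eq_mul_dv hφ a] with t h5 h6
    rw [h6, ← h5, norm_mul, Complex.norm_real, Real.norm_of_nonneg (wpos hφ t).le]
  rw [h2, h3]
  exact pairhalf hLP hA

end ADI

open ADI in
theorem f5 (hCL : CLStmt) (hSEP : SepStmt) : F5Stmt := by
  classical
  intro φ hφ hR F0 n hn
  have hn0 : 0 < n := by linarith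
  choose a ha1 ha2 using (hSEP φ hφ).1 F0
  set k : ℝ := (F0.card : ℝ) with hk
  have hk0 : 0 ≤ k := Nat.cast_nonneg _
  set ε : ℝ := 1 / (2 * (k + 1) * n) with hε
  have hε0 : 0 < ε := by positivity
  choose Rx hRx using fun x : ℝ => hCL φ hφ hR (a x) ε hε0
  set M : ℝ := ∑ x ∈ F0, ‖a x‖ with hM
  have hM0 : 0 ≤ M := Finset.sum_nonneg fun x _ => norm_nonneg _
  refine ⟨∑ x ∈ F0, (|Rx x| + |x|) + 1, n * (2 * M + 2), by positivity, fun F' hF' hI => ?_⟩
  have hle : ∀ x ∈ F0, |Rx x| + |x| ≤ ∑ x ∈ F0, (|Rx x| + |x|) := fun x hx =>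
    Finset.single_le_sum (f := fun x => |Rx x| + |x|)
      (fun y _ => add_nonneg (abs_nonneg _) (abs_nonneg _)) hx
  have hdis : Disjoint F0 F' := by
    rw [Finset.disjoint_left]
    intro x hx hx'
    have h1 := hF' x hx'
    have h2 := hle x hx
    have h3 := abs_nonneg (Rx x)
    linarith
  refine ⟨hdis, fun c A hA => ?_⟩
  have hA0 := bound_nonneg hφ hA
  set s : ℝ := ∑ x ∈ F0, ‖c x‖ with hs
  have hs0 : 0 ≤ s := Finset.sum_nonneg fun x _ => norm_nonneg _
  have hsplit : ∀ t : ℝ, ES (F0 ∪ F') c t = ES F0 c t + ES F' c t := by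
    intro t
    unfold ES
    exact Finset.sum_union hdis
  have hP1 : ∀ t : ℝ, 0 ≤ t → ‖ES F' c t‖ ≤ (A + s) * φ t := by
    intro t ht
    have h1 : ES F' c t = ES (F0 ∪ F') c t - ES F0 c t := by
      rw [hsplit t]
      ring
    have h2 : ‖ES F0 c t‖ ≤ s * φ t :=
      (ES_norm_le F0 c t).trans (le_mul_of_one_le_right hs0 (hφ.one_le t))
    rw [h1]
    refine (norm_sub_le _ _).trans ((add_le_add (hA t ht) h2).trans (le_of_eq ?_))
    ring
  have hP : ∀ t : ℝ, ‖ES F' c t‖ ≤ (n * (A + s)) * φ t := by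
    intro t
    rcases le_total 0 t with ht | ht
    · refine (hP1 t ht).trans ?_
      apply mul_le_mul_of_nonneg_right _ (wpos hφ t).le
      exact le_mul_of_one_le_left (by linarith) hn
    · have h1 := hI F' c (A + s) (le_refl _) hP1 t ht
      linarith [h1]
  have hc : ∀ x ∈ F0, ‖c x‖ ≤ A * ‖a x‖ + ε * (n * (A + s)) := by
    intro x hx
    have h1 := chiW_bound hφ (a x) (F0 ∪ F') c hA
    have h2 := hRx x F' c (n * (A + s)) (fun y hy => by
      have h3 := hF' y hy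
      have h4 := hle x hx
      have h5 := abs_nonneg x
      have h6 := le_abs_self (Rx x)
      linarith) hP
    have h3 : ∑ y ∈ F0 ∪ F', c y * chiW φ (y : ℂ) (a x) =
        c x + ∑ y ∈ F', c y * chiW φ (y : ℂ) (a x) := by
      rw [Finset.sum_union hdis, Finset.sum_eq_single x]
      · rw [ha1 x, mul_one]
      · intro y hy hyx
        rw [ha2 x y hy hyx, mul_zero]
      · intro h
        exact absurd hx h
    rw [h3] at h1
    have h4 : c x = (c x + ∑ y ∈ F', c y * chiW φ (y : ℂ) (a x)) -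
        ∑ y ∈ F', c y * chiW φ (y : ℂ) (a x) := by ring
    rw [h4]
    exact (norm_sub_le _ _).trans (add_le_add h1 h2)
  have hsum : s ≤ A * M + k * (ε * (n * (A + s))) := by
    have h1 := Finset.sum_le_sum hc
    rw [Finset.sum_add_distrib, ← Finset.mul_sum, Finset.sum_const, nsmul_eq_mul] at h1
    exact h1
  have hke : k * (ε * (n * (A + s))) ≤ (A + s) / 2 := by
    have h1 : ε * n = 1 / (2 * (k + 1)) := by
      rw [hε]
      field_simp
    have h2 : k * (ε * (n * (A + s))) = k * (ε * n) * (A + s) := by ring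
    have h3 : k * (ε * n) ≤ 1 / 2 := by
      rw [h1, mul_one_div, div_le_div_iff₀ (by positivity) (by norm_num)]
      linarith
    rw [h2]
    have h4 : 0 ≤ A + s := by linarith
    calc k * (ε * n) * (A + s) ≤ 1 / 2 * (A + s) := mul_le_mul_of_nonneg_right h3 h4
      _ = (A + s) / 2 := by ring
  have hs1 : s ≤ (2 * M + 1) * A := by linarith
  intro t
  refine (hP t).trans ?_
  apply mul_le_mul_of_nonneg_right _ (wpos hφ t).le
  have h1 : A + s ≤ (2 * M + 2) * A := by linarith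
  calc n * (A + s) ≤ n * ((2 * M + 2) * A) := mul_le_mul_of_nonneg_left h1 hn0.le
    _ = n * (2 * M + 2) * A := by ring

end

end Pool.Agent.WK2
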