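import Pool.Agent.WK2.Stmts

/-!
# MP_7d2497_an, squad WK2, row F6 (helper24): approximation
-/

set_option autoImplicit false

namespace Pool.Agent.WK2

open MeasureTheory Filter Topology Complex
open Pool.Agent.H78E Pool.Agent.WK
open Pool.Agent.WKS (dv YW WS chiW ISub annW)

noncomputable section

/-- F6: approximation of elements annihilated by a finite set by elements annihilated in
addition by a far out set. -/
theorem f6 (hCL : CLStmt) (hF5 : F5Stmt) (hRL : RLStmt) (hDua : DuaStmt) (hSep : SepStmt) :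
    F6Stmt := by
  intro φ hφ hreg F0 f hf0 n ε hn hε
  obtain ⟨R5, n', hn', h5⟩ := hF5 φ hφ hreg F0 n hn
  obtain ⟨⟨D, hD⟩, hRLf⟩ := hRL φ hφ
  obtain ⟨S0, hS0, hdua⟩ := hDua φ hφ
  have hD0 : 0 ≤ D := le_trans (ContinuousLinearMap.opNorm_nonneg _) (hD 0)
  have hD1 : 0 < 1 + D := by linarith
  have hS1 : 0 < S0 := lt_of_lt_of_le one_pos hS0
  obtain ⟨Rc, hRc⟩ := hCL φ hφ hreg f (ε / (4 * n' * S0 * (1 + D)))
    (div_pos hε (by positivity))
  obtain ⟨Rr, hRr⟩ := hRLf f (ε / 2) (half_pos hε)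
  refine ⟨max R5 (max Rc Rr), fun F' hF' hineq y hy => ?_⟩
  have hF5' : ∀ x ∈ F', R5 ≤ |x| := fun x hx => le_trans (le_max_left _ _) (hF' x hx)
  have hFc' : ∀ x ∈ F', Rc ≤ |x| := fun x hx =>
    le_trans (le_trans (le_max_left _ _) (le_max_right _ _)) (hF' x hx)
  have hyr : Rr ≤ |y| := le_trans (le_trans (le_max_right _ _) (le_max_right _ _)) hy
  obtain ⟨hdisj, hbd⟩ := h5 F' hF5' hineq
  have hδ : 0 < ε / (4 * (1 + D)) := by positivity
  obtain ⟨f1, hf1, hdist⟩ := hdua (F0 ∪ F') f (ε / (4 * (1 + D))) (by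
    intro c hc
    rw [Finset.sum_union hdisj, Finset.sum_eq_zero (fun x hx => by rw [hf0 x hx, mul_zero]),
      zero_add]
    have h1 := hRc F' c (n' * S0) hFc' (hbd c S0 hc)
    have h2 : ε / (4 * n' * S0 * (1 + D)) * (n' * S0) = ε / (4 * (1 + D)) := by
      field_simp
    rwa [h2] at h1) (ε / (4 * (1 + D))) hδ
  refine ⟨f1 - (WS hφ).En (1 - Complex.I * y) f1, ?_, ?_⟩
  · intro x hx
    rw [(hSep φ hφ).2 y (x : ℂ) f1 (by simp)]
    rcases Finset.mem_insert.1 hx with h | h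
    · rw [h]
      simp
    · rw [hf1 x h, mul_zero]
  · have e1 : f - (f1 - (WS hφ).En (1 - Complex.I * y) f1)
        = ((f - f1) - (WS hφ).En (1 - Complex.I * y) (f - f1))
          + (WS hφ).En (1 - Complex.I * y) f := by
      rw [map_sub]
      abel
    have h2 : ‖(WS hφ).En (1 - Complex.I * y) (f - f1)‖ ≤ D * ‖f - f1‖ :=
      le_trans (ContinuousLinearMap.le_opNorm _ _)
        (mul_le_mul_of_nonneg_right (hD y) (norm_nonneg _))
    have h3 := hRr y hyr
    have h4 : (1 + D) * ‖f - f1‖ ≤ (1 + D) * (ε / (4 * (1 + D)) + ε / (4 * (1 + D))) :=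
      mul_le_mul_of_nonneg_left hdist hD1.le
    have h5 : (1 + D) * (ε / (4 * (1 + D)) + ε / (4 * (1 + D))) = ε / 2 := by
      field_simp
      ring
    rw [e1]
    calc ‖((f - f1) - (WS hφ).En (1 - Complex.I * y) (f - f1))
          + (WS hφ).En (1 - Complex.I * y) f‖
        ≤ ‖(f - f1) - (WS hφ).En (1 - Complex.I * y) (f - f1)‖
          + ‖(WS hφ).En (1 - Complex.I * y) f‖ := norm_add_le _ _
      _ ≤ (‖f - f1‖ + ‖(WS hφ).En (1 - Complex.I * y) (f - f1)‖)
          + ‖(WS hφ).En (1 - Complex.I * y) f‖ := by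
          gcongr
          exact norm_sub_le _ _
      _ ≤ ε := by linarith

end

end Pool.Agent.WK2
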