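import Pool.Agent.WK2.Stmts

/-!
# MP_7d2497_an, squad WK2: row NEC (necessity)
-/

set_option autoImplicit false

namespace Pool.Agent.WK2

open MeasureTheory Filter Topology Complex
open Pool.Agent.H78E Pool.Agent.WK

noncomputable section

/-- NEC. -/
theorem nec (hCst : CstStmt) (hSum : SumStmt) (hNic : NicStmt) (hAsur : AsurStmt)
    (hOpn : OpnStmt) : NecStmt := by
  intro φ hφ hR L hE
  by_contra hF
  obtain ⟨K, hKL, hLF, hD, hC⟩ := hCst φ hφ hR L hF
  obtain ⟨hcl, hco⟩ := hSum.2.2.1 K hLF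
  have hN : Nice φ K := hNic φ hφ K ∅ (Set.empty_subset _) Set.subsingleton_empty hcl hco hD
  obtain ⟨C, hC'⟩ := hOpn φ hφ K hN (hAsur φ hφ K hN L hKL hE)
  exact hC C hC'

end

end Pool.Agent.WK2
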