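import Pool.Agent.WK2.Stmts

/-!
# MP_7d2497_an, squad WK2: polynomial weights with two exponents
-/

set_option autoImplicit false

namespace Pool.Agent.WK2

open MeasureTheory Filter Topology Complex
open Pool.Agent.H78E Pool.Agent.WK

noncomputable section

/-- The weight with polynomial growth of degree `a` at `+∞` and `b` at `-∞`. -/
def wp (a b : ℝ) (t : ℝ) : ℝ := (1 + max t 0) ^ a * (1 + max (-t) 0) ^ b

theorem wp_pos_one (t : ℝ) : 1 ≤ 1 + max t 0 := by
  have := le_max_right t 0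
  linarith

theorem wp_of_nonneg (a b : ℝ) {t : ℝ} (ht : 0 ≤ t) : wp a b t = (1 + t) ^ a := by
  unfold wp
  rw [max_eq_left ht, max_eq_right (by linarith), add_zero, Real.one_rpow, mul_one]

theorem wp_of_nonpos (a b : ℝ) {t : ℝ} (ht : t ≤ 0) : wp a b t = (1 + -t) ^ b := by
  unfold wp
  rw [max_eq_right ht, max_eq_left (by linarith), add_zero, Real.one_rpow, one_mul]

theorem factor_submul (t s : ℝ) : 1 + max (t + s) 0 ≤ (1 + max t 0) * (1 + max s 0) := by
  have h1 : max (t + s) 0 ≤ max t 0 + max s 0 := by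
    apply max_le
    · exact add_le_add (le_max_left _ _) (le_max_left _ _)
    · exact add_nonneg (le_max_right _ _) (le_max_right _ _)
  have h2 : 0 ≤ max t 0 * max s 0 := mul_nonneg (le_max_right _ _) (le_max_right _ _)
  nlinarith

theorem log_factor_tendsto (a : ℝ) :
    Tendsto (fun t : ℝ => a * Real.log (1 + t) / t) atTop (𝓝 0) := by
  have h1 : Tendsto (fun t : ℝ => Real.log (1 + t) / (1 + t)) atTop (𝓝 0) := by
    have h2 : Tendsto (fun x : ℝ => Real.log x / x) atTop (𝓝 0) := by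
      have := Real.isLittleO_log_id_atTop
      exact this.tendsto_div_nhds_zero
    exact h2.comp (tendsto_const_nhds.add_atTop tendsto_id |>.congr fun t => rfl)
  have h3 : Tendsto (fun t : ℝ => (1 + t) / t) atTop (𝓝 1) := by
    have h4 : Tendsto (fun t : ℝ => 1 / t + 1) atTop (𝓝 (0 + 1)) := by
      refine Tendsto.add ?_ tendsto_const_nhds
      have h6 := tendsto_inv_atTop_zero (𝕜 := ℝ)
      refine h6.congr fun t => ?_
      rw [one_div]
    rw [zero_add] at h4
    refine h4.congr' ?_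
    filter_upwards [eventually_gt_atTop 0] with t ht
    field_simp
  have h5 := (h1.mul h3).const_mul a
  rw [zero_mul, mul_zero] at h5
  refine h5.congr' ?_
  filter_upwards [eventually_gt_atTop 0] with t ht
  have : (1 + t) ≠ 0 := by linarith
  field_simp

theorem isWeight_wp {a b : ℝ} (ha : 0 ≤ a) (hb : 0 ≤ b) : IsWeight (wp a b) where
  meas := by
    unfold wp
    fun_prop
  one_le := by
    intro t
    unfold wp
    have h1 := Real.one_le_rpow (wp_pos_one t) ha
    have h2 := Real.one_le_rpow (wp_pos_one (-t)) hb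
    calc (1 : ℝ) = 1 * 1 := (one_mul 1).symm
      _ ≤ _ := mul_le_mul h1 h2 zero_le_one (zero_le_one.trans h1)
  submul := by
    intro t s
    unfold wp
    have p : ∀ t : ℝ, 0 ≤ 1 + max t 0 := fun t => zero_le_one.trans (wp_pos_one t)
    have h1 : (1 + max (t + s) 0) ^ a ≤ (1 + max t 0) ^ a * (1 + max s 0) ^ a := by
      rw [← Real.mul_rpow (p t) (p s)]
      exact Real.rpow_le_rpow (p _) (factor_submul t s) ha
    have h2 : (1 + max (-(t + s)) 0) ^ b ≤ (1 + max (-t) 0) ^ b * (1 + max (-s) 0) ^ b := by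
      rw [← Real.mul_rpow (p _) (p _)]
      refine Real.rpow_le_rpow (p _) ?_ hb
      rw [neg_add]
      exact factor_submul (-t) (-s)
    calc _ ≤ ((1 + max t 0) ^ a * (1 + max s 0) ^ a) *
          ((1 + max (-t) 0) ^ b * (1 + max (-s) 0) ^ b) :=
          mul_le_mul h1 h2 (Real.rpow_nonneg (p _) _)
            (mul_nonneg (Real.rpow_nonneg (p _) _) (Real.rpow_nonneg (p _) _))
      _ = _ := by ring
  top := by
    refine (log_factor_tendsto a).congr' ?_
    filter_upwards [eventually_gt_atTop 0] with t ht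
    rw [wp_of_nonneg a b ht.le, Real.log_rpow (by linarith)]
  bot := by
    have h := ((log_factor_tendsto b).comp tendsto_neg_atBot_atTop).neg
    rw [neg_zero] at h
    refine h.congr' ?_
    filter_upwards [eventually_lt_atBot 0] with t ht
    rw [wp_of_nonpos a b ht.le, Real.log_rpow (by linarith)]
    simp only [Function.comp]
    rw [div_neg, neg_neg]

theorem reg_mono {φ ψ : ℝ → ℝ} (h : ∀ t, φ t ≤ ψ t) (hψ : Reg ψ) : Reg φ := by
  obtain ⟨b, M, r, h1, h2, h3, h4, h5, h6⟩ := hψ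
  exact ⟨b, M, r, h1, fun s u hsu => (h s).trans (h2 s u hsu), h3, h4, h5, h6⟩

theorem wp_le {a b : ℝ} (ha : 0 ≤ a) (hb : 0 ≤ b) (t : ℝ) : wp a b t ≤ (1 + |t|) ^ (a + b) := by
  have h0 : 0 < 1 + |t| := by positivity
  rcases le_total 0 t with ht | ht
  · rw [wp_of_nonneg a b ht, abs_of_nonneg ht]
    exact Real.rpow_le_rpow_of_exponent_le (by linarith) (by linarith)
  · rw [wp_of_nonpos a b ht, abs_of_nonpos ht]
    exact Real.rpow_le_rpow_of_exponent_le (by linarith) (by linarith)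

theorem reg_wp (hReg : RegStmt) {a b : ℝ} (ha : 0 ≤ a) (hb : 0 ≤ b) : Reg (wp a b) :=
  reg_mono (wp_le ha hb) (hReg (a + b) (add_nonneg ha hb)).2

theorem wp_linear {a b : ℝ} (ha : 1 ≤ a) {t : ℝ} (ht : 0 ≤ t) : t ≤ 1 * wp a b t := by
  rw [one_mul, wp_of_nonneg a b ht]
  calc t ≤ (1 + t) ^ (1 : ℝ) := by rw [Real.rpow_one]; linarith
    _ ≤ (1 + t) ^ a := Real.rpow_le_rpow_of_exponent_le (by linarith) ha

theorem wp_ratio {a b : ℝ} (hab : b < a) :
    Tendsto (fun t : ℝ => wp a b (-t) / wp a b t) atTop (𝓝 0) := by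
  have h1 : Tendsto (fun t : ℝ => (1 + t) ^ (-(a - b))) atTop (𝓝 0) :=
    (tendsto_rpow_neg_atTop (sub_pos.mpr hab)).comp (tendsto_atTop_add_const_left _ 1 tendsto_id)
  refine h1.congr' ?_
  filter_upwards [eventually_ge_atTop 0] with t ht
  rw [wp_of_nonneg a b ht, wp_of_nonpos a b (by linarith : -t ≤ 0), neg_neg,
    ← Real.rpow_sub (by linarith)]
  congr 1
  ring

theorem wp_unbounded {a b : ℝ} (ha : 0 ≤ a) (ha1 : a < 1) :
    ¬ ∃ C : ℝ, ∀ t : ℝ, 0 ≤ t → t ≤ C * wp a b t := by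
  rintro ⟨C, hC⟩
  have h1 : Tendsto (fun t : ℝ => (1 + t) ^ (1 - a)) atTop atTop :=
    (tendsto_rpow_atTop (sub_pos.mpr ha1)).comp (tendsto_atTop_add_const_left _ 1 tendsto_id)
  obtain ⟨t, ht, ht1⟩ := ((h1.eventually_gt_atTop (2 * |C| + 2)).and (eventually_ge_atTop 1)).exists
  have h2 := hC t (by linarith)
  rw [wp_of_nonneg a b (by linarith)] at h2
  have h3 : (1 + t) ^ (1 - a) * (1 + t) ^ a = 1 + t := by
    rw [← Real.rpow_add (by linarith)]
    simp
  have h4 : 0 < (1 + t) ^ a := Real.rpow_pos_of_pos (by linarith) _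
  have h5 : t ≤ |C| * (1 + t) ^ a := h2.trans (mul_le_mul_of_nonneg_right (le_abs_self C) h4.le)
  have h6 : (2 * |C| + 2) * (1 + t) ^ a < 1 + t :=
    lt_of_lt_of_eq (mul_lt_mul_of_pos_right ht h4) h3
  nlinarith [abs_nonneg C]

end

end Pool.Agent.WK2
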