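import Pool.Agent.WK2.Stmts

/-!
# MP_7d2497_an, squad WK2: row RL (Riemann-Lebesgue)
-/

set_option autoImplicit false

namespace Pool.Agent.WK2

open MeasureTheory Filter Topology Complex
open Pool.Agent.H78E Pool.Agent.WK
open Pool.Agent.WKS (dv YW WS chiW GSemi GI YW_continuous YW_zero YW_add)

noncomputable section

namespace Rl

/-- the range of `En 1` is dense -/
theorem dense {φ : ℝ → ℝ} (hφ : IsWeight φ) (f : Y) {ε : ℝ} (hε : 0 < ε) :
    ∃ g : Y, ‖f - (WS hφ).En 1 g‖ ≤ ε := by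
  have ha : (0 : ℝ) < (1 : ℂ).re := by simp
  have hc : Continuous fun s : ℝ => Complex.exp (-(1 * (s : ℂ))) • (WS hφ).T (max s 0) f := by
    have hc1 : Continuous fun s : ℝ => Complex.exp (-(1 * (s : ℂ))) := by fun_prop
    exact hc1.smul ((WS hφ).cont f)
  have hG : HasDerivAt (fun v : ℝ => ∫ s in (0 : ℝ)..v,
      Complex.exp (-(1 * (s : ℂ))) • (WS hφ).T (max s 0) f) f 0 := by
    have h := (hc.integral_hasStrictDerivAt 0 0).hasDerivAt
    have e : Complex.exp (-(1 * ((0 : ℝ) : ℂ))) • (WS hφ).T (max (0 : ℝ) 0) f = f := by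
      rw [max_self, (WS hφ).zero]
      simp
    rw [e] at h
    exact h
  have h1 := hG.tendsto_slope_zero_right
  have h2 : ∀ᶠ t : ℝ in 𝓝[>] 0, ‖t⁻¹ • ((∫ s in (0 : ℝ)..(0 + t),
      Complex.exp (-(1 * (s : ℂ))) • (WS hφ).T (max s 0) f) - ∫ s in (0 : ℝ)..(0 : ℝ),
      Complex.exp (-(1 * (s : ℂ))) • (WS hφ).T (max s 0) f) - f‖ < ε := by
    have h3 := (h1.sub_const f).norm
    rw [sub_self, norm_zero] at h3
    exact h3.eventually_lt_const hε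
  obtain ⟨t, ht1, ht2⟩ := (h2.and self_mem_nhdsWithin).exists
  have ht0 : (0 : ℝ) < t := ht2
  rw [zero_add, intervalIntegral.integral_same, sub_zero] at ht1
  refine ⟨t⁻¹ • (f - Complex.exp (-(1 * (t : ℂ))) • YW φ t f), ?_⟩
  have h4 := (WS hφ).T_En hφ ha f ht0.le
  have h5 : YW φ t ((WS hφ).En 1 f) = (WS hφ).En 1 (YW φ t f) := by
    refine (WS hφ).pi_commute (WS hφ) (YW φ t) ?_ _ f
    intro s hs x
    simp only [Pool.Agent.WKS.WS_T]
    rw [← YW_add hφ ht0.le hs, ← YW_add hφ hs ht0.le, add_comm]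
  have h6 : ∫ s in (0 : ℝ)..t, Complex.exp (-(1 * (s : ℂ))) • (WS hφ).T (max s 0) f =
      (WS hφ).En 1 (f - Complex.exp (-(1 * (t : ℂ))) • YW φ t f) := by
    rw [map_sub, map_smul, ← h5]
    simp only [Pool.Agent.WKS.WS_T] at h4 ⊢
    rw [h4]
    abel
  rw [h6] at ht1
  rw [norm_sub_rev]
  have h7 : (WS hφ).En 1 (t⁻¹ • (f - Complex.exp (-(1 * (t : ℂ))) • YW φ t f)) =
      t⁻¹ • (WS hφ).En 1 (f - Complex.exp (-(1 * (t : ℂ))) • YW φ t f) := by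
    exact (((WS hφ).En 1).restrictScalars ℝ).map_smul _ _
  rw [h7]
  exact ht1.le

theorem bound {φ : ℝ → ℝ} (hφ : IsWeight φ) :
    ∃ D : ℝ, 0 ≤ D ∧ ∀ y : ℝ, ‖(WS hφ).En (1 - Complex.I * y)‖ ≤ D := by
  have hw0 : ∀ t, 0 ≤ φ t := fun t => zero_le_one.trans (hφ.one_le t)
  refine ⟨∫ s in Set.Ioi (0 : ℝ), φ s * Real.exp (-s), ?_, ?_⟩
  · exact integral_nonneg fun t => mul_nonneg (hw0 t) (Real.exp_pos _).le
  intro y
  have ha : (0 : ℝ) < (1 - Complex.I * (y : ℂ)).re := by simp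
  have h := (WS hφ).pi_norm hw0 (GI.exp hφ ha)
  refine h.trans (le_of_eq ?_)
  congr 1
  ext1 s
  rw [Complex.norm_exp]
  simp

end Rl

/-- RL. -/
theorem rl : RLStmt := by
  intro φ hφ
  obtain ⟨D, hD0, hD⟩ := Rl.bound hφ
  refine ⟨⟨D, hD⟩, ?_⟩
  intro f ε hε
  have hD1 : (0 : ℝ) < D + 1 := by linarith
  obtain ⟨g, hg⟩ := Rl.dense hφ f (ε := ε / (2 * (D + 1))) (by positivity)
  refine ⟨4 * (D + 1) * (‖g‖ + 1) / ε, ?_⟩
  intro y hy
  have hg0 : (0 : ℝ) < ‖g‖ + 1 := by positivity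
  have hy0 : (0 : ℝ) < |y| := lt_of_lt_of_le (by positivity) hy
  have ha : (0 : ℝ) < (1 - Complex.I * (y : ℂ)).re := by simp
  have hb : (0 : ℝ) < (1 : ℂ).re := by simp
  have h1 := (WS hφ).resid hφ ha hb g
  have h1b := hD 0
  have e0 : (1 : ℂ) - Complex.I * ((0 : ℝ) : ℂ) = 1 := by simp
  rw [e0] at h1b
  have h2 : ‖(WS hφ).En (1 - Complex.I * y) ((WS hφ).En 1 g)‖ * |y| ≤ 2 * D * ‖g‖ := by
    have h3 : ‖((1 : ℂ) - (1 - Complex.I * y)) •
        (WS hφ).En (1 - Complex.I * y) ((WS hφ).En 1 g)‖ =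
        |y| * ‖(WS hφ).En (1 - Complex.I * y) ((WS hφ).En 1 g)‖ := by
      rw [norm_smul, sub_sub_cancel, norm_mul, Complex.norm_I, one_mul, Complex.norm_real,
        Real.norm_eq_abs]
    rw [mul_comm, ← h3, ← h1]
    calc _ ≤ ‖(WS hφ).En (1 - Complex.I * y) g‖ + ‖(WS hφ).En 1 g‖ := norm_sub_le _ _
      _ ≤ D * ‖g‖ + D * ‖g‖ := add_le_add (ContinuousLinearMap.le_of_opNorm_le _ (hD y) g)
          (ContinuousLinearMap.le_of_opNorm_le _ h1b g)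
      _ = 2 * D * ‖g‖ := by ring
  have h4 : ‖(WS hφ).En (1 - Complex.I * y) ((WS hφ).En 1 g)‖ ≤ ε / 2 := by
    have h5 : 2 * D * ‖g‖ ≤ ε / 2 * |y| := by
      have h6 : ε / 2 * (4 * (D + 1) * (‖g‖ + 1) / ε) ≤ ε / 2 * |y| :=
        mul_le_mul_of_nonneg_left hy (by positivity)
      have h7 : ε / 2 * (4 * (D + 1) * (‖g‖ + 1) / ε) = 2 * (D + 1) * (‖g‖ + 1) := by
        field_simp
        ring
      rw [h7] at h6
      nlinarith [norm_nonneg g, mul_nonneg hD0 (norm_nonneg g)]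
    exact le_of_mul_le_mul_right (h2.trans h5) hy0
  have h8 : (WS hφ).En (1 - Complex.I * y) f =
      (WS hφ).En (1 - Complex.I * y) (f - (WS hφ).En 1 g) +
      (WS hφ).En (1 - Complex.I * y) ((WS hφ).En 1 g) := by
    rw [← map_add, sub_add_cancel]
  have h9 : ‖(WS hφ).En (1 - Complex.I * y) (f - (WS hφ).En 1 g)‖ ≤ ε / 2 := by
    calc _ ≤ D * ‖f - (WS hφ).En 1 g‖ := ContinuousLinearMap.le_of_opNorm_le _ (hD y) _
      _ ≤ (D + 1) * (ε / (2 * (D + 1))) := by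
          refine mul_le_mul (by linarith) hg (norm_nonneg _) hD1.le
      _ = ε / 2 := by
          field_simp
  rw [h8]
  calc _ ≤ _ := norm_add_le _ _
    _ ≤ ε / 2 + ε / 2 := add_le_add h9 h4
    _ = ε := by ring

end

end Pool.Agent.WK2
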