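import Pool.Agent.WK2.Stmts

/-!
# MP_7d2497_an, squad WK2: row SEP
-/

set_option autoImplicit false

namespace Pool.Agent.WK2

open MeasureTheory Filter Topology Complex
open Pool.Agent.H78E Pool.Agent.WK Pool.Agent.WKS

noncomputable section

namespace H32

theorem chiW_En {φ : ℝ → ℝ} (hφ : IsWeight φ) {z a : ℂ} (hz : z.im ≤ 0) (ha : 0 < a.re) (v : Y) :
    chiW φ z ((WS hφ).En a v) = 1 / (a + Complex.I * z) * chiW φ z v := by
  unfold GSemi.En
  rw [chiW_pi hφ hz _ (GI.exp hφ ha)]
  congr 1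
  rw [← integral_exp_im (a := a + Complex.I * z) (by simp; linarith)]
  apply setIntegral_congr_fun measurableSet_Ioi
  intro t _
  simp only
  rw [← Complex.exp_add]
  congr 1
  ring

theorem den_ne {y : ℝ} {z : ℂ} (hz : z.im ≤ 0) : 1 + Complex.I * (z - y) ≠ 0 := by
  intro h
  have := congrArg Complex.re h
  simp at this
  linarith

theorem part2 {φ : ℝ → ℝ} (hφ : IsWeight φ) (y : ℝ) (z : ℂ) (f : Y) (hz : z.im ≤ 0) :
    chiW φ z (f - (WS hφ).En (1 - Complex.I * y) f) =
      (Complex.I * (z - y)) / (1 + Complex.I * (z - y)) * chiW φ z f := by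
  rw [map_sub, chiW_En hφ hz (by simp) f]
  have h1 := den_ne (y := y) hz
  have h2 : 1 - Complex.I * (y : ℂ) + Complex.I * z = 1 + Complex.I * (z - y) := by ring
  rw [h2]
  field_simp
  ring

end H32

open H32 in
theorem sep : SepStmt := by
  intro φ hφ
  refine ⟨?_, fun y z f hz => part2 hφ y z f hz⟩
  intro F x
  have key : ∃ a : Y, chiW φ (x : ℂ) a ≠ 0 ∧ ∀ y ∈ F, y ≠ x → chiW φ (y : ℂ) a = 0 := by
    induction F using Finset.induction_on with
    | empty =>
      refine ⟨rw' φ, chiW_rw_ne hφ (by simp), ?_⟩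
      intro y hy
      exact absurd hy (Finset.notMem_empty y)
    | insert y₀ F _ ih =>
      obtain ⟨a, ha, hF⟩ := ih
      by_cases h0 : y₀ = x
      · refine ⟨a, ha, ?_⟩
        intro y hy hyx
        rcases Finset.mem_insert.1 hy with h | h
        · exact absurd (h.trans h0) hyx
        · exact hF y h hyx
      · refine ⟨a - (WS hφ).En (1 - Complex.I * y₀) a, ?_, ?_⟩
        · rw [part2 hφ y₀ x a (by simp)]
          refine mul_ne_zero (div_ne_zero (mul_ne_zero Complex.I_ne_zero ?_) (den_ne (by simp))) ha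
          rw [sub_ne_zero]
          intro h
          exact h0 (by exact_mod_cast h.symm)
        · intro y hy hyx
          rw [part2 hφ y₀ y a (by simp)]
          rcases Finset.mem_insert.1 hy with h | h
          · rw [h, sub_self, mul_zero, zero_div, zero_mul]
          · rw [hF y h hyx, mul_zero]
  obtain ⟨a, ha, hF⟩ := key
  refine ⟨(chiW φ (x : ℂ) a)⁻¹ • a, ?_, ?_⟩
  · rw [map_smul, smul_eq_mul, inv_mul_cancel₀ ha]
  · intro y hy hyx
    rw [map_smul, hF y hy hyx, smul_zero]

end

end Pool.Agent.WK2
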