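import Pool.Agent.WK2.Stmts
import Pool.Agent.WK.SpeG

/-!
# MP_7d2497_an, squad WK2, row SPEG (helper19, on top of `WK/SpeG.lean` of helper7)
-/

set_option autoImplicit false

namespace Pool.Agent.WK2

open MeasureTheory Filter Topology Complex
open Pool.Agent.H78E Pool.Agent.WK

theorem speg (hNim : NimStmt) (hSpx : SpxStmt) (hVan : VanStmt) (hCon : ConStmt)
    (hFub : FubStmt) (hSpc : SpcStmt) : SpegStmt := by
  intro φ hφ K hcl hco hU hN g G hg hS hX hGg
  exact Pool.Agent.WK.speG hNim hSpx hVan hCon hFub hSpc hφ K hcl hco hU hN g G hg hS hX hGg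

end Pool.Agent.WK2
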