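import Pool.Agent.WK2.Stmts

/-!
# MP_7d2497_an, squad WK2, row SUF (helper68): sufficiency, assembled
-/

set_option autoImplicit false

namespace Pool.Agent.WK2

open MeasureTheory Filter Topology Complex
open Pool.Agent.H78E Pool.Agent.WK

noncomputable section

theorem suf (uxi : UxiStmt) (aik : AikStmt) (adi : AdiStmt) (extg : ExtgStmt) (speg : SpegStmt)
    (spc : SpcStmt) (disc : DiscStmt) (sm : SumStmt) (syn : SynStmt) : SufStmt := by
  intro φ hφ L hII hI g hg hne hsimple hsub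
  obtain ⟨K, hK⟩ : ∃ K : Set ℝ, K = {x : ℝ | (x : ℂ) ∈ SpecPos φ g} := ⟨_, rfl⟩
  have hmem : ∀ x : ℝ, x ∈ K ↔ (x : ℂ) ∈ SpecPos φ g := fun x => by rw [hK]; exact Iff.rfl
  have hrc : SpecPos φ g = rc K := by
    ext z
    constructor
    · intro hz
      obtain ⟨x, _, hx⟩ := hsub hz
      have hx' : (x : ℂ) = z := hx
      exact ⟨x, (hmem x).2 (by rw [hx']; exact hz), hx⟩
    · rintro ⟨x, hx, hxz⟩
      have hx' : (x : ℂ) = z := hxz
      rw [← hx']
      exact (hmem x).1 hx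
  have hKL : K ⊆ L := by
    intro x hx
    obtain ⟨y, hy, hyx⟩ := hsub ((hmem x).1 hx)
    have h1 : (y : ℂ) = (x : ℂ) := hyx
    have h2 : y = x := Complex.ofReal_injective h1
    rw [← h2]
    exact hy
  have hKcl : IsClosed K := by
    rw [hK]
    exact (spc φ hφ g hg).2.preimage Complex.continuous_ofReal
  have hKne : K.Nonempty := by
    obtain ⟨z, hz⟩ := hne
    rw [hrc] at hz
    obtain ⟨x, hx, _⟩ := hz
    exact ⟨x, hx⟩
  have hlf : LocFin K := by
    rcases hII with hC | hfin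
    · exact disc φ hφ hC g hg hsimple K hrc
    · intro R
      exact hfin (K ∩ Set.Icc (-R) R) (Set.inter_subset_left.trans hKL)
        (hKcl.inter isClosed_Icc) ((Metric.isBounded_Icc (-R) R).subset Set.inter_subset_right)
  obtain ⟨R, C, hIn⟩ := hI
  have hIn' : Ineq φ {x | x ∈ K ∧ R ≤ |x|} C := by
    intro F c A hF hA
    exact hIn F c A (fun x hx => ⟨hKL (hF hx).1, (hF hx).2⟩) hA
  obtain ⟨hU, hN, hD⟩ := uxi φ hφ g K hg hsimple hrc hKne hlf
  have hA := aik φ hφ K hD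
  obtain ⟨C', hC'⟩ := adi φ hφ K hlf hU R C hIn'
  have hMK : MK φ K g := syn φ hφ g K hg hsimple hrc hKne hlf
  obtain ⟨G, hXK, hGg⟩ := extg φ hφ K hU hA C' hC' g hMK
  refine ⟨G, hXK.1, hGg, ?_⟩
  rw [speg φ hφ K hKcl (sm.2.2.1 K hlf).2 hU hN g G hMK hrc hXK hGg, hrc]
  rfl

end

end Pool.Agent.WK2
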