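import Pool.Agent.WK2.Adi
import Pool.Agent.WK2.Aik
import Pool.Agent.WK2.Cst
import Pool.Agent.WK2.Dua
import Pool.Agent.WK2.Extg
import Pool.Agent.WK2.F5
import Pool.Agent.WK2.F6
import Pool.Agent.WK2.Poly
import Pool.Agent.WK2.Nec
import Pool.Agent.WK2.Rl
import Pool.Agent.WK2.Sep
import Pool.Agent.WK2.Speg
import Pool.Agent.WK2.Suf
import Pool.Agent.WK.Lew
import Pool.Agent.WK.Fac
import Pool.Agent.WK.Corr
import Pool.Agent.WK.Fub
import Pool.Agent.WK.Qai
import Pool.Agent.WK.Sum
import Pool.Agent.WK.Niu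
import Pool.Agent.WK.Nim
import Pool.Agent.WK.Nic
import Pool.Agent.WK.Spc
import Pool.Agent.WK.Sim
import Pool.Agent.WK.Van
import Pool.Agent.WK.Spx
import Pool.Agent.WK.Asur
import Pool.Agent.WK.Opn
import Pool.Agent.WK.Wlm
import Pool.Agent.WK.Disc
import Pool.Agent.WK.Syn

/-!
# MP_7d2497_an, squad WK2: the theorem on regular weights, assembly
-/

set_option autoImplicit false

namespace Pool.Agent.WK2

open MeasureTheory Filter Topology Complex
open Pool.Agent.H78E Pool.Agent.WK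

noncomputable section

/-- Sufficiency, every weight. -/
theorem suff : SufStmt := by
  have hLew : LewStmt := lew
  have hFac : FacStmt := fac cnv hLew
  have hCon : ConStmt := con
  have hFub : FubStmt := fub
  have hNim : NimStmt := nim hFub
  have hSpc : SpcStmt := spc
  exact suf uxi (aik qai) adi (extg wlm hCon hFub) (speg hNim spx van hCon hFub hSpc) hSpc
    (disc hSpc hFac) sum syn

/-- Necessity, regular weights. -/
theorem necc (hCL : CLStmt) : NecStmt := by
  have hLew : LewStmt := lew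
  have hFac : FacStmt := fac cnv hLew
  have hFub : FubStmt := fub
  have hNim : NimStmt := nim hFub
  have hSpc : SpcStmt := spc
  exact nec (cst (f6 hCL (f5 hCL sep) rl dua sep)) sum (nic (niu hFac hLew) hNim hLew hSpc)
    (asur sim van) (opn spx van)

/-- The criterion for every weight, when all spectra are locally finite. -/
theorem crit (φ : ℝ → ℝ) (hφ : IsWeight φ) (L : Set ℝ) (hII : CondII φ L) :
    PropertyE φ L ↔ ∀ K ⊆ L, LocFin K → Dns φ K ∅ → ∃ C : ℝ, Ineq φ K C := by
  have hLew : LewStmt := lew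
  have hFac : FacStmt := fac cnv hLew
  have hCon : ConStmt := con
  have hFub : FubStmt := fub
  have hNim : NimStmt := nim hFub
  have hSpc : SpcStmt := spc
  have hSum : SumStmt := sum
  constructor
  · intro hE K hKL hLF hD
    have hnice : Nice φ K := nic (niu hFac hLew) hNim hLew hSpc φ hφ K ∅ (Set.empty_subset _)
      Set.subsingleton_empty (hSum.2.2.1 K hLF).1 (hSum.2.2.1 K hLF).2 hD
    exact opn spx van φ hφ K hnice (asur sim van φ hφ K hnice L hKL hE)
  · intro hK g hg hne hsimple hsub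
    obtain ⟨K, hKdef⟩ : ∃ K : Set ℝ, K = {x : ℝ | (x : ℂ) ∈ SpecPos φ g} := ⟨_, rfl⟩
    have hmem : ∀ x : ℝ, x ∈ K ↔ (x : ℂ) ∈ SpecPos φ g := fun x => by rw [hKdef]; exact Iff.rfl
    have hspec : SpecPos φ g = rc K := by
      apply Set.Subset.antisymm
      · intro z hz
        obtain ⟨x, _, rfl⟩ := hsub hz
        exact ⟨x, (hmem x).mpr hz, rfl⟩
      · rintro z ⟨x, hx, rfl⟩
        exact (hmem x).mp hx
    have hKL : K ⊆ L := by
      intro x hx
      obtain ⟨y, hy, hyx⟩ := hsub ((hmem x).mp hx)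
      have : y = x := Complex.ofReal_injective hyx
      rwa [← this]
    have hcl : IsClosed K := by
      have h1 := (hSpc φ hφ g hg).2
      have h2 : K = (fun x : ℝ => (x : ℂ)) ⁻¹' SpecPos φ g := by
        ext x
        exact hmem x
      rw [h2]
      exact h1.preimage Complex.continuous_ofReal
    have hLF : LocFin K := by
      rcases hII with hC | hfin
      · exact disc hSpc hFac φ hφ hC g hg hsimple K hspec
      · intro R
        exact hfin _ (Set.inter_subset_left.trans hKL) (hcl.inter isClosed_Icc)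
          (Metric.isBounded_Icc _ _ |>.subset Set.inter_subset_right)
    have hne' : K.Nonempty := by
      obtain ⟨z, hz⟩ := hne
      rw [hspec] at hz
      obtain ⟨x, hx, _⟩ := hz
      exact ⟨x, hx⟩
    obtain ⟨hU, hN, hD⟩ := uxi φ hφ g K hg hsimple hspec hne' hLF
    obtain ⟨C, hC⟩ := hK K hKL hLF hD
    have hM : MK φ K g := syn φ hφ g K hg hsimple hspec hne' hLF
    obtain ⟨G, hX, hG⟩ := extg wlm hCon hFub φ hφ K hU (aik qai φ hφ K hD) C hC g hM
    have hs : Spec φ G = K := speg hNim spx van hCon hFub hSpc φ hφ K (hSum.2.2.1 K hLF).1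
      (hSum.2.2.1 K hLF).2 hU hN g G hM hspec hX hG
    refine ⟨G, hX.1, hG, ?_⟩
    rw [hs, hspec]
    rfl

/-- The theorem on weights of at least linear growth and on sets without infinite bounded closed
subsets. -/
theorem main2 (hCL : CLStmt) (hReg : RegStmt) :
    (∀ φ : ℝ → ℝ, IsWeight φ → ∀ L : Set ℝ, CondII φ L →
      (PropertyE φ L ↔ ∀ K ⊆ L, LocFin K → Dns φ K ∅ → ∃ C : ℝ, Ineq φ K C) ∧
      (FarI φ L → PropertyE φ L) ∧ (Reg φ → (PropertyE φ L ↔ FarI φ L))) ∧
    (∀ a b : ℝ, 1 ≤ a → 0 ≤ b → IsWeight (wp a b) ∧ Reg (wp a b) ∧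
      ∀ L : Set ℝ, (PropertyE (wp a b) L ↔ FarI (wp a b) L)) := by
  refine ⟨fun φ hφ L hII => ⟨crit φ hφ L hII, suff φ hφ L hII, fun hR =>
    ⟨necc hCL φ hφ hR L, suff φ hφ L hII⟩⟩, fun a b ha hb => ?_⟩
  have ha0 : 0 ≤ a := zero_le_one.trans ha
  refine ⟨isWeight_wp ha0 hb, reg_wp hReg ha0 hb, fun L => ?_⟩
  exact ⟨necc hCL _ (isWeight_wp ha0 hb) (reg_wp hReg ha0 hb) L,
    suff _ (isWeight_wp ha0 hb) L (Or.inl ⟨1, fun t ht => wp_linear ha ht⟩)⟩

end

end Pool.Agent.WK2
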