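import Pool.Agent.WK2.Stmts

/-!
# MP_7d2497_an, squad WK2: dictionary between `Y` and functions
-/

set_option autoImplicit false

namespace Pool.Agent.WK2

open MeasureTheory Filter Topology Complex
open Pool.Agent.H78E Pool.Agent.WK
open Pool.Agent.WKS

noncomputable section

variable {φ : ℝ → ℝ}

/-- The norm of an element of `Y` is the weighted norm of the function. -/
theorem normW_eq (hφ : IsWeight φ) (F : Y) :
    ‖F‖ = ∫ t : ℝ, φ t * ‖((dv φ F : X) : ℝ → ℂ) t‖ := by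
  have h1 : ‖F‖ = ∫ t : ℝ, ‖((F : X) : ℝ → ℂ) t‖ := L1.norm_eq_integral_norm (F : X)
  rw [h1]
  apply integral_congr_ae
  filter_upwards [coe_eq_mul_dv hφ F] with t ht
  rw [ht, norm_mul, Complex.norm_real, Real.norm_of_nonneg (one_le_max_zero hφ t).le]

theorem FT_eq {f : ℝ → ℂ} (h0 : ∀ t : ℝ, t < 0 → f t = 0) {F : Y}
    (hF : ((dv φ F : X) : ℝ → ℂ) =ᵐ[volume] f) {z : ℂ} (hz : z.im ≤ 0) :
    FT f z = chiW φ z F := by
  unfold FT
  rw [chiW_rep hz]
  apply integral_congr_ae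
  filter_upwards [hF] with t ht
  rw [ht]
  unfold expPos
  by_cases h : 0 ≤ t
  · rw [if_pos h]
  · rw [h0 t (not_le.mp h), zero_mul, zero_mul]

/-- Functions give elements. -/
theorem toE (hφ : IsWeight φ) {f : ℝ → ℂ} (hf : LP φ f) :
    ∃ F : Y, ((dv φ F : X) : ℝ → ℂ) =ᵐ[volume] f ∧ ‖F‖ = ∫ t : ℝ, φ t * ‖f t‖ ∧
      ∀ z : ℂ, z.im ≤ 0 → FT f z = chiW φ z F := by
  obtain ⟨F, hF⟩ := toYW hφ hf.1 (Eventually.of_forall hf.2)
  refine ⟨F, hF, ?_, fun z hz => FT_eq hf.2 hF hz⟩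
  rw [normW_eq hφ]
  apply integral_congr_ae
  filter_upwards [hF] with t ht
  rw [ht]

/-- Elements give functions. -/
theorem ofE (hφ : IsWeight φ) (F : Y) :
    ∃ f : ℝ → ℂ, LP φ f ∧ ((dv φ F : X) : ℝ → ℂ) =ᵐ[volume] f ∧
      ‖F‖ = ∫ t : ℝ, φ t * ‖f t‖ ∧ ∀ z : ℂ, z.im ≤ 0 → FT f z = chiW φ z F := by
  obtain ⟨f, h1, h2, h3⟩ := ofYW hφ F
  refine ⟨f, ⟨h1, h2⟩, h3, ?_, fun z hz => FT_eq h2 h3 hz⟩
  rw [normW_eq hφ]
  apply integral_congr_ae
  filter_upwards [h3] with t ht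
  rw [ht]

/-- Distances. -/
theorem distE (hφ : IsWeight φ) {F F' : Y} {f f' : ℝ → ℂ}
    (hF : ((dv φ F : X) : ℝ → ℂ) =ᵐ[volume] f) (hF' : ((dv φ F' : X) : ℝ → ℂ) =ᵐ[volume] f') :
    ‖F - F'‖ = ∫ t : ℝ, φ t * ‖f t - f' t‖ := by
  rw [normW_eq hφ]
  apply integral_congr_ae
  have h : ((dv φ (F - F') : X) : ℝ → ℂ) =ᵐ[volume]
      fun t => ((dv φ F : X) : ℝ → ℂ) t - ((dv φ F' : X) : ℝ → ℂ) t := by
    rw [map_sub]
    exact Lp.coeFn_sub _ _
  filter_upwards [hF, hF', h] with t h1 h2 h3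
  rw [h3, h1, h2]

/-- The transform at real points is multiplied by a unimodular factor under translation. -/
theorem chiW_YW_real (hφ : IsWeight φ) (x : ℝ) {s : ℝ} (hs : 0 ≤ s) (F : Y) :
    chiW φ (x : ℂ) (YW φ s F) = Complex.exp (-(Complex.I * (s : ℂ) * (x : ℂ))) *
      chiW φ (x : ℂ) F := chiW_YW hφ (by simp) hs F

/-- The pairing with an exponential sum. -/
theorem sum_chiW (F : Y) (S : Finset ℝ) (c : ℝ → ℂ) :
    ∑ x ∈ S, c x * chiW φ (x : ℂ) F = ∫ t : ℝ, ((dv φ F : X) : ℝ → ℂ) t * ES S c t := by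
  have hF : ∀ᵐ t : ℝ, t < 0 → ((dv φ F : X) : ℝ → ℂ) t = 0 := (dv φ F).2
  have hi : ∀ x ∈ S, Integrable (fun t : ℝ => ((dv φ F : X) : ℝ → ℂ) t * (c x * expR x t))
      volume := by
    intro x _
    refine (L1.integrable_coeFn (dv φ F : X)).mul_bdd (c := ‖c x‖) ?_ ?_
    · apply Continuous.aestronglyMeasurable
      unfold expR
      fun_prop
    · refine Eventually.of_forall fun t => ?_
      rw [norm_mul]
      have : ‖expR x t‖ = 1 := by
        unfold expR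
        rw [Complex.norm_exp]
        simp
      rw [this, mul_one]
  have e : ∀ t : ℝ, ((dv φ F : X) : ℝ → ℂ) t * ES S c t =
      ∑ x ∈ S, ((dv φ F : X) : ℝ → ℂ) t * (c x * expR x t) := by
    intro t
    unfold ES
    rw [Finset.mul_sum]
  simp_rw [e]
  rw [integral_finsetSum S hi]
  apply Finset.sum_congr rfl
  intro x _
  rw [chiW_rep (by simp), ← integral_const_mul]
  apply integral_congr_ae
  filter_upwards [hF] with t ht
  by_cases h : t < 0
  · rw [ht h]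
    ring
  · unfold expPos expR
    rw [if_pos (not_lt.mp h)]
    ring

end

end Pool.Agent.WK2
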