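import Pool.Agent.WK2.Defs

/-!
# MP_7d2497_an, squad WK2: statements, with proofs in words

Notation. `Y` is the Banach space of `Helper78_E/Base`: the element `f : Y` stands for the function
`dv φ f = f / φ` (`Helper67_WKS/Base`, namespace `Pool.Agent.WKS`): so `‖f‖` is the weighted norm
of `dv φ f`, `chiW φ z f` is the transform of `dv φ f` at `z`, `YW φ s` the translation by
`s ≥ 0`, `WS hφ` the semigroup, `(WS hφ).En a` the convolution with `exp(-at)`, `Re a > 0`.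
Tools: `toYW`, `ofYW` (functions and elements), `YW_continuous`, `YW_norm`, `local_bound`,
`lapuW`, `chiW_En_one`, `densW`, `GSemi.pi_norm`, `GSemi.resid`, `GI.exp`, and `annW`,
`mem_BPos_iffW`, `specPos_eqW`, `ne_of_simple`, `ISub.exists_idempotent`, `ISub.ch_idempotent`,
`local_part` in `Helper67_WKS/Syn` and `Res`.
-/

set_option autoImplicit false

namespace Pool.Agent.WK2

open MeasureTheory Filter Topology Complex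
open Pool.Agent.H78E Pool.Agent.WK
open Pool.Agent.WKS (dv YW WS chiW ISub annW)

noncomputable section

/-! ### Necessity -/

/-- REG. The polynomial weights.

Proof: `1 + |t+τ| ≤ (1+|t|)(1+|τ|)`; `log φ(t) / t = a log(1+|t|)/t → 0`. `M = φ`. `b`: let `ψ` be a
smooth real function with compact support, `ψ 0 = 1` (`ContDiffBump`), and `b` its (inverse)
Fourier transform, a Schwartz function (`HasCompactSupport.toSchwartzMap` or the like), so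
`(1+|u|)^a |b u|` is integrable, and the transform of `b` at `x` is `ψ(± x/(2π))` by Fourier
inversion. (Any other choice of `b` is fine, e.g. explicit.) -/
def RegStmt : Prop := ∀ a : ℝ, 0 ≤ a →
  IsWeight (fun t : ℝ => (1 + |t|) ^ a) ∧ Reg (fun t : ℝ => (1 + |t|) ^ a)

/-- CL. Exponential sums with frequencies far out are small functionals.

Proof: let `P = ES S c`, `|x| ≥ R` on `S`, `R = r ρ`, `ρ ≥ 1`, `u = dv φ f` (zero for `t < 0`), so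
`∑ c x * chiW φ x f = ∫ u P`. As `∫ b(v) exp(-ixv/ρ) dv = 0` for `|x|/ρ ≥ r`,
`∫ b(v) (∫ u(t) P(t + v/ρ) dt) dv = ∑ c x (chiW φ x f) ∫ b(v) exp(-ixv/ρ) dv = 0`, so
`∫ u P = ∫ b(v) E(v/ρ) dv`, `E(h) = ∫ u(t) (P(t) - P(t+h)) dt`.
`|E(h)| ≤ B (1 + φ h) ‖f‖` (submultiplicativity). For `h ≥ 0`: `|E(h)| = |∫ (u(t) - u(t-h)) P(t) dt|
≤ B ‖f - YW φ h f‖`; for `h = -k < 0`, with `Q(t) = P(t-k)`, `|Q| ≤ B φ(-k) φ(t)`:
`|E(h)| = |∫ u(t) (Q(t+k) - Q(t)) dt| ≤ B φ(-k) ‖f - YW φ k f‖`. So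
`|∫ u P| ≤ B ∫ |b(v)| min((1 + M v) ‖f‖, (1 + φ(-|v|/ρ)) ‖f - YW φ (|v|/ρ) f‖) dv`, which tends to
`0` as `ρ → ∞` by dominated convergence (`YW_continuous`, `local_bound`; `1 ≤ φ ≤ M`). -/
def CLStmt : Prop := ∀ φ : ℝ → ℝ, IsWeight φ → Reg φ → ∀ (f : Y) (ε : ℝ), 0 < ε →
  ∃ R : ℝ, ∀ (S : Finset ℝ) (c : ℝ → ℂ) (B : ℝ), (∀ x ∈ S, R ≤ |x|) →
    (∀ t : ℝ, ‖ES S c t‖ ≤ B * φ t) → ‖∑ x ∈ S, c x * chiW φ (x : ℂ) f‖ ≤ ε * B

/-- SEP. Separating elements for finite sets, and the operator `1 - En (1 - iy)`.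

Proof: the last part: `chiW_pi` with `GI.exp` (as in `chiW_En_one`). The first: apply
`g ↦ g - En (1 - iy) g` for all `y ∈ F`, `y ≠ x`, to `rw' φ`, normalise. -/
def SepStmt : Prop := ∀ (φ : ℝ → ℝ) (hφ : IsWeight φ),
  (∀ (F : Finset ℝ) (x : ℝ), ∃ a : Y, chiW φ (x : ℂ) a = 1 ∧
    ∀ y ∈ F, y ≠ x → chiW φ (y : ℂ) a = 0) ∧
  ∀ (y : ℝ) (z : ℂ) (f : Y), z.im ≤ 0 →
    chiW φ z (f - (WS hφ).En (1 - Complex.I * y) f) =
      (Complex.I * (z - y)) / (1 + Complex.I * (z - y)) * chiW φ z f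

/-- RL. Riemann-Lebesgue.

Proof: `‖En (1 - iy)‖ ≤ D = ∫_0^∞ φ exp(-s)` (`GSemi.pi_norm`, `|exp(-(1-iy)s)| = exp(-s)`). By
`GSemi.resid`, `En (1 - iy) (En 1 g) = (En (1-iy) g - En 1 g) / (iy)`, of norm
`≤ 2 D ‖g‖ / |y|`. The range of `En 1` is dense: otherwise (Hahn-Banach) a functional `l ≠ 0`
vanishes on it, so `l (YW φ s (En 1 g)) = l (En 1 (YW φ s g)) = 0` for `s ≥ 0`, and
`l (YW φ s g) = 0` by differentiation (the end of the proof of `WKS.syn_functional`); `s → 0`. -/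
def RLStmt : Prop := ∀ (φ : ℝ → ℝ) (hφ : IsWeight φ),
  (∃ D : ℝ, ∀ y : ℝ, ‖(WS hφ).En (1 - Complex.I * y)‖ ≤ D) ∧
  ∀ (f : Y) (ε : ℝ), 0 < ε → ∃ R : ℝ, ∀ y : ℝ, R ≤ |y| →
    ‖(WS hφ).En (1 - Complex.I * y) f‖ ≤ ε

/-- DUA. Duality for finite sets.

Proof: `S0 ≥ φ` on `[-1,1]`. `I = {g : Y | ∀ x ∈ S, chiW φ x g = 0}` is a closed subspace. If the
distance of `f` to `I` is bigger than `δ + η/2`, Hahn-Banach in `Y ⧸ I` gives `l : Y →L[ℂ] ℂ`,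
`‖l‖ ≤ 1`, `l = 0` on `I`, `l f = dist` (real, `> δ`). `l = ∑ c x chiW φ x`, `x ∈ S`
(`mem_span_of_iInf_ker_le_ker`). With `P = ES S c`: for `t ≥ 0` test `l` on the element `g` with
`dv φ g = (1/h) 1_[t,t+h]` (`toYW`): `‖g‖ ≤ (1/h) ∫_t^(t+h) φ ≤ S0 φ(t)` for `h ≤ 1`, and
`l g = (1/h) ∫_t^(t+h) P → P(t)`; so `‖P t‖ ≤ S0 φ t`. Then `|l f| ≤ δ`, a contradiction. -/
def DuaStmt : Prop := ∀ φ : ℝ → ℝ, IsWeight φ → ∃ S0 : ℝ, 1 ≤ S0 ∧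
  ∀ (S : Finset ℝ) (f : Y) (δ : ℝ),
    (∀ c : ℝ → ℂ, (∀ t : ℝ, 0 ≤ t → ‖ES S c t‖ ≤ S0 * φ t) →
      ‖∑ x ∈ S, c x * chiW φ (x : ℂ) f‖ ≤ δ) →
    ∀ η : ℝ, 0 < η → ∃ f1 : Y, (∀ x ∈ S, chiW φ (x : ℂ) f1 = 0) ∧ ‖f - f1‖ ≤ δ + η

/-- F5. Separation of a finite set and a far out set (uses CL, SEP).

Proof: `a_x`, `x ∈ F0`, from SEP (dual to `F0`); `m = ∑_(F0) ‖a_x‖`, `k = card F0`; CL for all
`a_x` with `ε`, `k ε n ≤ 1/2`; `R` also bigger than all `|x|`, `x ∈ F0`. Let `F'` be as in the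
statement, `P = P0 + P'`, `P0 = ES F0 c`, `P' = ES F' c`, `|P(t)| ≤ A φ(t)` for `t ≥ 0`, and
`s = ∑_(F0) |c x|`, so `|P0| ≤ s ≤ s φ`, and `|P'(t)| ≤ (A + s) φ(t)` for `t ≥ 0`, so
`|P'(t)| ≤ n (A+s) φ(t)` for all `t` (`n ≥ 1`, `Ineq`). For `x ∈ F0`:
`c x = ∫ (dv a_x) P - ∫ (dv a_x) P'`, so `|c x| ≤ ‖a_x‖ A + ε n (A + s)`. Summing:
`s ≤ m A + (A+s)/2`, `s ≤ (2m+1) A`; `n' = n (2m+2)`. -/
def F5Stmt : Prop := ∀ φ : ℝ → ℝ, IsWeight φ → Reg φ → ∀ (F0 : Finset ℝ) (n : ℝ), 1 ≤ n →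
  ∃ R n' : ℝ, 0 < n' ∧ ∀ F' : Finset ℝ, (∀ x ∈ F', R ≤ |x|) → Ineq φ (F' : Set ℝ) n →
    Disjoint F0 F' ∧ ∀ (c : ℝ → ℂ) (A : ℝ), (∀ t : ℝ, 0 ≤ t → ‖ES (F0 ∪ F') c t‖ ≤ A * φ t) →
      ∀ t : ℝ, ‖ES F' c t‖ ≤ n' * A * φ t

/-- F6. Approximation (uses CL, F5, RL, DUA, SEP).

Proof: `R, n'` from F5, `D` from RL, `S0` from DUA. CL for `f` with `ε' = ε / (4 n' S0 (1+D))`;
RL for `f` with `ε/2`. Let `F', y` be given. DUA with `S = F0 ∪ F'`: if `‖P t‖ ≤ S0 φ t` for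
`t ≥ 0`, `P = ES S c`, then `|P'| ≤ n' S0 φ` everywhere, and, as `chiW φ x f = 0` on `F0`,
`|∑_S c x chiW φ x f| = |∑_(F') c x chiW φ x f| ≤ ε' n' S0 = δ`. So there is `f1` with
`chiW φ x f1 = 0` on `F0 ∪ F'` and `‖f - f1‖ ≤ 2 δ = ε / (2 (1+D))`. Put
`f' = f1 - En (1 - iy) f1`: by SEP it is annihilated by `chiW φ x`, `x ∈ F0 ∪ F' ∪ {y}`, and
`‖f - f'‖ ≤ ‖f - f1‖ + ‖En (1-iy) (f1 - f)‖ + ‖En (1-iy) f‖ ≤ (1+D) ‖f - f1‖ + ε/2 ≤ ε`. -/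
def F6Stmt : Prop := ∀ φ : ℝ → ℝ, IsWeight φ → Reg φ → ∀ (F0 : Finset ℝ) (f : Y),
  (∀ x ∈ F0, chiW φ (x : ℂ) f = 0) → ∀ n ε : ℝ, 1 ≤ n → 0 < ε →
  ∃ R : ℝ, ∀ F' : Finset ℝ, (∀ x ∈ F', R ≤ |x|) → Ineq φ (F' : Set ℝ) n → ∀ y : ℝ, R ≤ |y| →
    ∃ f' : Y, (∀ x ∈ insert y (F0 ∪ F'), chiW φ (x : ℂ) f' = 0) ∧ ‖f - f'‖ ≤ ε

/-- CST. Construction of a bad nice set (uses F6).

Proof. (1) For all `R, C ≥ 0` there is a finite `F ⊆ L`, `|x| ≥ R` on `F`, with `¬ Ineq φ F C`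
(`¬ FarI`); take one of minimal cardinality; it is not empty (`ES ∅ c = 0`, `C ≥ 0`, `A ≥ 0`), so
`F = insert y F'`, `y ∉ F'`, and `Ineq φ F' C` by minimality.
(2) STEP: given `N`, elements `w_n : Y` and finite sets `G_n` with `chiW φ x w_n = 0` on `G_n`
(`n ≤ N`), there are a finite `F ⊆ L`, `|x| ≥ N` on `F`, `¬ Ineq φ F (4^N)`, and `w'_n` (`n ≤ N`)
with `chiW φ x w'_n = 0` on `G_n ∪ F`, `‖w_n - w'_n‖ ≤ 2^(-N)`: F6 for all `n ≤ N` with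
`n := 4^N`, `ε := 2^(-N)` gives `R_n`; take (1) with `R = max(N, R_n)`, `C = 4^N`: `F = insert y F'`,
`w'_n` from F6 at `F', y`.
(3) Let `g_n ∈ Y` be a sequence in which every `E_m`, `dv φ E_m = exp(-(m+1)t)`, occurs infinitely
often (`Nat.unpair`). Recursively (dependent choice) `w_(n,N)`, `G_(n,N)`, `F_N`:
`w_(n,0) = … = w_(n,n) = g_n`, `G_(n,n) = ∅`, and STEP for `n ≤ N`. So `w_(n,N)` is Cauchy for
`N → ∞`; limit `w_n`; `‖w_n - g_n‖ ≤ 2^(1-n)`; `chiW φ x w_n = 0` for `x ∈ F_j`, `j ≥ n`.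
`K = ⋃ F_N`: `LocFin` as `|x| ≥ N` on `F_N`, `¬ Ineq φ K C`. `Dns φ K ∅`: `f ∈ LP`; by `densW` (or
`DEN`) it is close to a finite combination of the `E_m`, each close to some `w_n`, `n` large, whose
transform vanishes on `K` off the finite set `F_0 ∪ … ∪ F_(n-1)`. -/
def CstStmt : Prop := ∀ φ : ℝ → ℝ, IsWeight φ → Reg φ → ∀ L : Set ℝ, ¬ FarI φ L →
  ∃ K : Set ℝ, K ⊆ L ∧ LocFin K ∧ Dns φ K ∅ ∧ ∀ C : ℝ, ¬ Ineq φ K C

/-- NEC. Necessity (uses CST and the rows SUM, NIC, ASUR, OPN of WK).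

Proof: otherwise take `K` from CST: closed, countable (SUM), nice (NIC with `Z = ∅`), so
`∃ C, Ineq φ K C` (ASUR, OPN), a contradiction. -/
def NecStmt : Prop := ∀ φ : ℝ → ℝ, IsWeight φ → Reg φ → ∀ L : Set ℝ, PropertyE φ L → FarI φ L

/-! ### Sufficiency, for every weight -/

/-- UXI. The spectrum of a simple function.

Proof: `l` from `exists_functionalW`, `K = hull (annW l)` by `specPos_eqW`; as in the proof of
`WKS.syn` every functional vanishing on `annW l` with one point hull is `c • chiW φ z`. HasU: the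
Riesz idempotent `e_x` at `x ∈ K` (`exists_idempotent`; isolation as in `WKS.syn`), `u` a lift of
`e_x (qm (rw' φ))`, by `ch_idempotent` `chiW φ y u = 0` for `y ∈ K`, `y ≠ x`, and
`chiW φ x u ≠ 0`; normalise, `ofYW`. HasN: `x ∉ K` gives `f ∈ annW l` with `chiW φ x f ≠ 0`; and
`f ∈ annW l` vanishes on `K = hull`. `Dns φ K ∅`: the elements of `Y` with transform zero on `K` minus a
finite set form an invariant subspace `W`; if it is not dense, Hahn-Banach gives `k ≠ 0`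
vanishing on `W`, in particular on `annW l ⊆ W`, and on all `convW u_x g`, `g : Y`. The hull of
`annW k` is empty: it is in `K` (`hullW_mono`, `annW_le_of`), and for `x ∈ K` the element
`u_x ∈ annW k` has `chiW φ x u_x = 1` (`YW φ s u_x ∈ W`). By `ne_of_simple`, `k = 0`. -/
def UxiStmt : Prop := ∀ φ : ℝ → ℝ, IsWeight φ → ∀ (g : ℝ → ℂ) (K : Set ℝ), LInfPos φ g →
  SimpleSpec φ g → SpecPos φ g = rc K → K.Nonempty → LocFin K →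
  HasU φ K ∧ HasN φ K ∧ Dns φ K ∅

/-- AIK. Adapted approximate identities from density (uses QAI of WK).

Proof: `f_n` from `Dns` for `q (n+1)` with `ε = 1/(n+1)`. -/
def AikStmt : Prop := ∀ φ : ℝ → ℝ, IsWeight φ → ∀ K : Set ℝ, Dns φ K ∅ → HasA φ K

/-- ADI. Adding finitely many frequencies.

Proof: `K0 = {x ∈ K, |x| < R}` is finite; `u_x`, `x ∈ K0`, from `HasU`. Let `P = ES F c`, `F ⊆ K`,
`|P| ≤ A φ` on `t ≥ 0`. For `x ∈ K0 ∩ F`: `c x = ∫ u_x P`, so `|c x| ≤ ‖u_x‖ A`; so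
`P0 = ES (F ∩ K0) c` has `|P0| ≤ m A ≤ m A φ`, `m = ∑_(K0) ‖u_x‖`, and `P' = P - P0` has
`|P'| ≤ (1+m) A φ` on `t ≥ 0`, so `|P'| ≤ C (1+m) A φ` on `t ≤ 0`. `C' = C (1+m) + m`
(`C ≥ 0` or not). -/
def AdiStmt : Prop := ∀ φ : ℝ → ℝ, IsWeight φ → ∀ K : Set ℝ, LocFin K → HasU φ K →
  ∀ R C : ℝ, Ineq φ {x | x ∈ K ∧ R ≤ |x|} C → ∃ C' : ℝ, Ineq φ K C'

/-- EXTG. The extension, without sparsity; see EXT of WK (helper7). -/
def ExtgStmt : Prop := ∀ φ : ℝ → ℝ, IsWeight φ → ∀ K : Set ℝ, HasU φ K → HasA φ K →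
  ∀ C : ℝ, Ineq φ K C → ∀ g : ℝ → ℂ, MK φ K g →
  ∃ G : ℝ → ℂ, XK φ K G ∧ ∀ᵐ t : ℝ, 0 ≤ t → G t = g t

/-- SPEG. The spectrum of the extension, without sparsity; see SPE of WK. -/
def SpegStmt : Prop := ∀ φ : ℝ → ℝ, IsWeight φ → ∀ K : Set ℝ, IsClosed K → K.Countable →
  HasU φ K → HasN φ K → ∀ g G : ℝ → ℂ, MK φ K g → SpecPos φ g = rc K → XK φ K G →
  (∀ᵐ t : ℝ, 0 ≤ t → G t = g t) → Spec φ G = K

/-- SUF. Sufficiency (uses SPC, DISC, SUM, SYN of WK and UXI, AIK, ADI, EXTG, SPEG).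

Proof: `K = {x | (x : ℂ) ∈ SpecPos φ g}`, `SpecPos φ g = rc K`, `K ⊆ L`, closed (SPC). `LocFin K`:
DISC, or `K ∩ [-R,R]` is a bounded closed subset of `L`. UXI, AIK; `Ineq φ {x ∈ K, R ≤ |x|} C`
from `FarI`; ADI; SYN; EXTG; SPEG. -/
def SufStmt : Prop := ∀ φ : ℝ → ℝ, IsWeight φ → ∀ L : Set ℝ, CondII φ L → FarI φ L →
  PropertyE φ L

end

end Pool.Agent.WK2
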