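import Pool.Agent.WK2.Kit

/-!
# MP_7d2497_an, squad WK2: row UXI, the spectrum of a simple function
-/

set_option autoImplicit false

namespace Pool.Agent.WK2

open MeasureTheory Filter Topology Complex
open Pool.Agent.H78E Pool.Agent.WK
open Pool.Agent.WKS

noncomputable section

namespace Uxi

variable {φ : ℝ → ℝ}

/-- Elements whose transform vanishes on `K` off a finite set. -/
def W (φ : ℝ → ℝ) (K : Set ℝ) : Submodule ℂ Y where
  carrier := {f | ∃ F : Finset ℝ, ∀ x ∈ K, x ∉ F → chiW φ (x : ℂ) f = 0}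
  add_mem' := by
    classical
    rintro a b ⟨F, hF⟩ ⟨G, hG⟩
    refine ⟨F ∪ G, fun x hx hx2 => ?_⟩
    rw [Finset.mem_union, not_or] at hx2
    rw [map_add, hF x hx hx2.1, hG x hx hx2.2, add_zero]
  zero_mem' := ⟨∅, fun x _ _ => map_zero _⟩
  smul_mem' := by
    rintro c a ⟨F, hF⟩
    exact ⟨F, fun x hx hx2 => by rw [map_smul, hF x hx hx2, smul_zero]⟩

theorem W_inv (hφ : IsWeight φ) (K : Set ℝ) {s : ℝ} (hs : 0 ≤ s) {f : Y} (hf : f ∈ W φ K) :
    YW φ s f ∈ W φ K := by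
  obtain ⟨F, hF⟩ := hf
  exact ⟨F, fun x hx hx2 => by rw [chiW_YW_real hφ x hs, hF x hx hx2, mul_zero]⟩

/-- The closure as a closed invariant subspace. -/
def WJ (hφ : IsWeight φ) (K : Set ℝ) : ISub φ where
  I := (W φ K).topologicalClosure
  closed := (W φ K).isClosed_topologicalClosure
  inv := by
    intro s hs f hf
    have h1 : f ∈ closure ((W φ K : Submodule ℂ Y) : Set Y) := hf
    have h2 : YW φ s f ∈ closure ((W φ K : Submodule ℂ Y) : Set Y) :=
      map_mem_closure (YW φ s).continuous h1 (fun a ha => W_inv hφ K hs ha)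
    exact h2

end Uxi

open Uxi in
theorem uxi : UxiStmt := by
  intro φ hφ g K hg hs hK hne hfin
  obtain ⟨l, hl⟩ := exists_functionalW hφ hg
  have hspec : rc K = (annW hφ l).hull := by
    rw [← hK]
    exact specPos_eqW hφ hg hl
  have hmemK : ∀ x : ℝ, (x : ℂ) ∈ (annW hφ l).hull ↔ x ∈ K := by
    intro x
    rw [← hspec]
    constructor
    · rintro ⟨y, hy, hyx⟩
      have : y = x := Complex.ofReal_injective hyx
      rwa [← this]
    · intro hx
      exact ⟨x, hx, rfl⟩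
  have hsimp : ∀ k : Y →L[ℂ] ℂ, (∀ f ∈ (annW hφ l).I, k f = 0) → (∃ z, (annW hφ k).hull = {z}) →
      ∃ c z : ℂ, z.im ≤ 0 ∧ k = c • chiW φ z := by
    intro k hk hz
    obtain ⟨u, hu, huL⟩ := exists_functionW hφ k
    have huB : u ∈ BPos φ g := (mem_BPos_iffW hφ hg huL hl hu).mpr hk
    obtain ⟨c, z, hz1, hz2⟩ := hs u huB (by
      obtain ⟨z, hz⟩ := hz
      exact ⟨z, by rw [specPos_eqW hφ huL hu, hz]⟩)
    exact ⟨c, z, hz1, repW_smul_exp hu hz1 hz2⟩
  have hreal : ∀ z ∈ (annW hφ l).hull, z.im = 0 := by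
    intro z hz
    rw [← hspec] at hz
    obtain ⟨x, _, rfl⟩ := hz
    simp
  have hne' : (annW hφ l).hull.Nonempty := by
    rw [← hspec]
    exact hne.image _
  -- separating elements
  have hu : ∀ x0 ∈ K, ∃ u : Y, chiW φ (x0 : ℂ) u = 1 ∧ ∀ y ∈ K, y ≠ x0 → chiW φ (y : ℂ) u = 0 := by
    intro x0 hx0
    have hfin2 : ((K ∩ Set.Icc (-(|x0| + 1)) (|x0| + 1)) \ {x0}).Finite :=
      (hfin (|x0| + 1)).subset Set.sdiff_subset
    have hcl : IsClosed ((K ∩ Set.Icc (-(|x0| + 1)) (|x0| + 1)) \ {x0}) := hfin2.isClosed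
    have hnot : x0 ∉ ((K ∩ Set.Icc (-(|x0| + 1)) (|x0| + 1)) \ {x0}) := fun h => h.2 rfl
    obtain ⟨δ, hδ, hball⟩ := Metric.isOpen_iff.mp hcl.isOpen_compl x0 hnot
    have hiso : ∀ x : ℝ, (x : ℂ) ∈ (annW hφ l).hull → |x - x0| < min δ 1 → x = x0 := by
      intro x hx hxd
      by_contra hxx
      have hy : x ∈ K := (hmemK x).mp hx
      have h1 : x ∈ Metric.ball x0 δ := by
        rw [Metric.mem_ball, Real.dist_eq]
        exact hxd.trans_le (min_le_left _ _)
      refine hball h1 ⟨⟨hy, ?_⟩, hxx⟩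
      have h2 : |x - x0| < 1 := hxd.trans_le (min_le_right _ _)
      have h3 := abs_lt.mp h2
      constructor
      · linarith [neg_abs_le x0]
      · linarith [le_abs_self x0]
    obtain ⟨ρ, e, hρ, hunit, _, _, heθ⟩ := (annW hφ l).exists_idempotent hφ
      (lt_min hδ zero_lt_one) hreal hiso
    obtain ⟨u, hu⟩ := (annW hφ l).qm_surj (e ((annW hφ l).qm (rw' φ)))
    have key : ∀ y ∈ K, chiW φ (y : ℂ) u = if y = x0 then chiW φ (y : ℂ) (rw' φ) else 0 := by
      intro y hy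
      have h1 : chiW φ (y : ℂ) u = (annW hφ l).ch ((hmemK y).mpr hy) ((annW hφ l).qm u) := rfl
      rw [h1, hu, (annW hφ l).ch_idempotent hφ hρ hunit heθ ((hmemK y).mpr hy)]
      rfl
    have h0 := chiW_rw_ne hφ (w := (x0 : ℂ)) (by simp)
    refine ⟨(chiW φ (x0 : ℂ) (rw' φ))⁻¹ • u, ?_, ?_⟩
    · rw [map_smul, key x0 hx0, if_pos rfl, smul_eq_mul, inv_mul_cancel₀ h0]
    · intro y hy hyx
      rw [map_smul, key y hy, if_neg hyx, smul_zero]
  refine ⟨?_, ?_, ?_⟩
  · intro x hx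
    obtain ⟨u, hu1, hu2⟩ := hu x hx
    obtain ⟨f, hf1, _, _, hf2⟩ := ofE hφ u
    refine ⟨f, hf1, ?_, fun y hy hyx => ?_⟩
    · rw [hf2 _ (by simp), hu1]
    · rw [hf2 _ (by simp), hu2 y hy hyx]
  · intro x hx
    have h1 : (x : ℂ) ∉ (annW hφ l).hull := fun h => hx ((hmemK x).mp h)
    have h2 : ∃ f ∈ (annW hφ l).I, chiW φ (x : ℂ) f ≠ 0 := by
      by_contra hcon
      push Not at hcon
      exact h1 ⟨by simp, hcon⟩
    obtain ⟨F, hF, hFx⟩ := h2
    obtain ⟨f, hf1, _, _, hf2⟩ := ofE hφ F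
    refine ⟨f, ⟨hf1, fun y hy => ?_⟩, ?_⟩
    · rw [hf2 _ (by simp)]
      exact ((hmemK y).mpr hy).2 F hF
    · rw [hf2 _ (by simp)]
      exact hFx
  · -- density
    have hdense : ∀ f : Y, f ∈ (W φ K).topologicalClosure := by
      intro f
      by_contra hf
      set J : ISub φ := WJ hφ K with hJ
      have hf' : J.qm f ≠ 0 := fun h => hf (J.qm_eq_zero.mp h)
      obtain ⟨θ, _, hθ⟩ := exists_dual_vector ℂ (J.qm f) (norm_ne_zero_iff.mpr hf')
      set k : Y →L[ℂ] ℂ := θ.comp J.qm with hk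
      have hkf : k f ≠ 0 := by
        have h1 : k f = θ (J.qm f) := rfl
        rw [h1, hθ]
        simpa using hf'
      have hkW : ∀ a ∈ W φ K, k a = 0 := by
        intro a ha
        have h1 : J.qm a = 0 := J.qm_eq_zero.mpr ((W φ K).le_topologicalClosure ha)
        have h2 : k a = θ (J.qm a) := rfl
        rw [h2, h1, map_zero]
      have hkann : ∀ a ∈ (annW hφ l).I, k a = 0 := by
        intro a ha
        refine hkW a ⟨∅, fun x hx _ => ?_⟩
        exact ((hmemK x).mpr hx).2 a ha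
      have hemp : (annW hφ k).hull = ∅ := by
        rw [Set.eq_empty_iff_forall_notMem]
        intro z hz
        have hz2 := hullW_mono (annW_le_of hφ hkann) hz
        rw [← hspec] at hz2
        obtain ⟨x, hx, rfl⟩ := hz2
        obtain ⟨u, hu1, hu2⟩ := hu x hx
        have h3 : u ∈ (annW hφ k).I := by
          intro s hs
          refine hkW _ (W_inv hφ K hs ⟨{x}, fun y hy hyx => ?_⟩)
          exact hu2 y hy (by simpa using hyx)
        have h4 := hz.2 u h3
        rw [hu1] at h4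
        exact one_ne_zero h4
      have hk0 := ne_of_simple hφ hsimp hne' hkann hemp
      apply hkf
      rw [hk0]
      rfl
    intro f hf _ ε hε
    obtain ⟨F, hF1, _, _⟩ := toE hφ hf
    have h1 : F ∈ closure ((W φ K : Submodule ℂ Y) : Set Y) := hdense F
    obtain ⟨F', hF', hd⟩ := Metric.mem_closure_iff.mp h1 ε hε
    obtain ⟨f', hf1, hf2, _, hf3⟩ := ofE hφ F'
    obtain ⟨S, hS⟩ := hF'
    classical
    refine ⟨f', hf1, ⟨S.filter (fun x => x ∈ K), ?_, ?_⟩, ?_⟩
    · intro x hx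
      rw [Finset.mem_filter] at hx
      exact ⟨hx.2, fun h => h.elim⟩
    · intro x hx hx2
      rw [hf3 _ (by simp)]
      apply hS x hx
      intro h
      exact hx2 (Finset.mem_filter.mpr ⟨h, hx⟩)
    · rw [← distE hφ hF1 hf2, ← dist_eq_norm]
      exact hd

end

end Pool.Agent.WK2
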